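import Pool.Agent.Lib.MP_f234cd_al.Count

set_option autoImplicit false

namespace Pool.Agent.Lib.MP_f234cd_al

/-- The affine group `x ↦ a x + b` of the field with `p` elements. -/
@[ext] structure Aff (p : ℕ) : Type where
  a : (ZMod p)ˣ
  b : ZMod p

namespace Aff

variable {p : ℕ}

instance : Mul (Aff p) := ⟨fun x y => ⟨x.a * y.a, x.a * y.b + x.b⟩⟩
instance : One (Aff p) := ⟨⟨1, 0⟩⟩
instance : Inv (Aff p) := ⟨fun x => ⟨x.a⁻¹, -((x.a⁻¹ : (ZMod p)ˣ) * x.b)⟩⟩

theorem mul_a (x y : Aff p) : (x * y).a = x.a * y.a := rfl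
theorem mul_b (x y : Aff p) : (x * y).b = x.a * y.b + x.b := rfl
theorem one_a : (1 : Aff p).a = 1 := rfl
theorem one_b : (1 : Aff p).b = 0 := rfl
theorem inv_a (x : Aff p) : (x⁻¹).a = x.a⁻¹ := rfl
theorem inv_b (x : Aff p) : (x⁻¹).b = -((x.a⁻¹ : (ZMod p)ˣ) * x.b) := rfl

instance : Group (Aff p) :=
  Group.ofLeftAxioms
    (by
      intro x y z
      ext
      · rw [mul_a, mul_a, mul_a, mul_a, mul_assoc]
      · rw [mul_b, mul_b, mul_b, mul_b, mul_a, Units.val_mul]; ring)
    (by
      intro x
      ext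
      · rw [mul_a, one_a, one_mul]
      · rw [mul_b, one_a, one_b, Units.val_one]; ring)
    (by
      intro x
      ext
      · rw [mul_a, inv_a, one_a, inv_mul_cancel]
      · rw [mul_b, inv_a, inv_b, one_b]; ring)

instance : MulAction (Aff p) (ZMod p) where
  smul x y := x.a * y + x.b
  one_smul y := by
    change ((1 : Aff p).a : ZMod p) * y + (1 : Aff p).b = y
    rw [one_a, one_b, Units.val_one]; ring
  mul_smul x z y := by
    change ((x * z).a : ZMod p) * y + (x * z).b = x.a * (z.a * y + z.b) + x.b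
    rw [mul_a, mul_b, Units.val_mul]; ring

theorem smul_def (x : Aff p) (y : ZMod p) : x • y = x.a * y + x.b := rfl

/-- The affine group as a product type. -/
def equivProd : Aff p ≃ (ZMod p)ˣ × ZMod p where
  toFun x := (x.a, x.b)
  invFun y := ⟨y.1, y.2⟩
  left_inv _ := rfl
  right_inv _ := rfl

instance [NeZero p] : Finite (Aff p) := Finite.of_equiv _ equivProd.symm

instance : DecidableEq (Aff p) := equivProd.decidableEq

instance : FaithfulSMul (Aff p) (ZMod p) where
  eq_of_smul_eq_smul := by
    intro x y h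
    have h0 := h 0
    have h1 := h 1
    rw [smul_def, smul_def, mul_zero, mul_zero, zero_add, zero_add] at h0
    rw [smul_def, smul_def, mul_one, mul_one, h0] at h1
    ext
    · exact add_right_cancel h1
    · exact h0

theorem card_eq [Fact p.Prime] : Nat.card (Aff p) = (p - 1) * p := by
  rw [Nat.card_congr equivProd, Nat.card_prod, Nat.card_eq_fintype_card, ZMod.card_units,
    Nat.card_eq_fintype_card, ZMod.card]

theorem fixed_card [Fact p.Prime] (x : Aff p) (hx : (orderOf x).Prime) :
    (Finset.univ.filter (fun y : ZMod p => x • y = y)).card < orderOf x := by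
  refine lt_of_le_of_lt ?_ hx.one_lt
  rw [Finset.card_le_one]
  intro y hy z hz
  rw [Finset.mem_filter, smul_def] at hy hz
  by_contra hne
  have hsub : y - z ≠ 0 := sub_ne_zero.mpr hne
  have h1 : ((x.a : ZMod p) - 1) * (y - z) = 0 := by
    linear_combination hy.2 - hz.2
  have h2 : (x.a : ZMod p) = 1 := by
    rcases mul_eq_zero.mp h1 with h | h
    · exact sub_eq_zero.mp h
    · exact absurd h hsub
  have h3 : x.b = 0 := by
    have := hy.2
    rw [h2, one_mul] at this
    exact left_eq_add.mp this.symm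
  have h4 : x = 1 := by
    ext
    · rw [one_a, h2, Units.val_one]
    · rw [one_b, h3]
  rw [h4, orderOf_one] at hx
  exact Nat.not_prime_one hx

end Aff

/-- For each prime `p`: `p (p - 1) ≤ p! / τ'(p)`. -/
theorem prime_bound (p : ℕ) [hp : Fact p.Prime] :
    0 < tauPrime p ∧ tauPrime p * ((p - 1) * p) ≤ p.factorial := by
  have h := tauPrime_bound (Aff p) (ZMod p) (fun x hx => Aff.fixed_card x hx)
  rw [ZMod.card, Aff.card_eq] at h
  exact h

end Pool.Agent.Lib.MP_f234cd_al
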