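import Mathlib

set_option autoImplicit false

open scoped Pointwise

namespace Pool.Agent.Lib.MP_f234cd_al

/-- `RelOn r S S'`: the relation `r` maps the finite set `S` onto the finite set `S'`
(every point of `S` has a partner in `S'` and conversely). -/
def RelOn {U : Type} (r : U → U → Prop) (S S' : Finset U) : Prop :=
  (∀ u ∈ S, ∃ v ∈ S', r u v) ∧ (∀ v ∈ S', ∃ u ∈ S, r u v)

section freeSets

variable {H U : Type} [Group H] [Finite H] [MulAction H U] [DecidableEq U]

/-- Two finite invariant sets with free action and the same cardinality are isomorphic. -/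
theorem exists_equivariant (n : ℕ) : ∀ (X Y : Finset U), X.card = n → Y.card = n →
    (∀ h : H, ∀ u ∈ X, h • u ∈ X) → (∀ h : H, ∀ u ∈ Y, h • u ∈ Y) →
    (∀ h : H, ∀ u ∈ X, h • u = u → h = 1) → (∀ h : H, ∀ u ∈ Y, h • u = u → h = 1) →
    ∃ f : U → U, (∀ u ∈ X, f u ∈ Y) ∧ (∀ v ∈ Y, ∃ u ∈ X, f u = v) ∧
      (∀ h : H, ∀ u ∈ X, f (h • u) = h • f u) := by
  induction n using Nat.strong_induction_on with
  | _ n ih =>
    intro X Y hXn hYn hX hY fX fY
    rcases Finset.eq_empty_or_nonempty X with hXe | ⟨x, hx⟩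
    · subst hXe
      have : Y = ∅ := by
        rw [← Finset.card_eq_zero, hYn, ← hXn]; rfl
      subst this
      exact ⟨id, by simp, by simp, by simp⟩
    · have hYne : Y.Nonempty := by
        rw [← Finset.card_pos, hYn, ← hXn]; exact Finset.card_pos.mpr ⟨x, hx⟩
      obtain ⟨y, hy⟩ := hYne
      have : Fintype H := Fintype.ofFinite H
      have inj : ∀ z : U, (∀ h : H, h • z = z → h = 1) →
          Function.Injective (fun h : H => h • z) := by
        intro z hz a b hab
        have hab' : a • z = b • z := hab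
        have : (b⁻¹ * a) • z = z := by rw [mul_smul, hab', inv_smul_smul]
        have := hz _ this
        exact (eq_of_inv_mul_eq_one this).symm
      let Ox : Finset U := Finset.univ.image (fun h : H => h • x)
      let Oy : Finset U := Finset.univ.image (fun h : H => h • y)
      have injx := inj x (fun h => fX h x hx)
      have injy := inj y (fun h => fY h y hy)
      have cOx : Ox.card = Fintype.card H := Finset.card_image_of_injective _ injx
      have cOy : Oy.card = Fintype.card H := Finset.card_image_of_injective _ injy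
      have sOx : Ox ⊆ X := by
        intro u hu
        obtain ⟨h, -, rfl⟩ := Finset.mem_image.mp hu
        exact hX h x hx
      have sOy : Oy ⊆ Y := by
        intro u hu
        obtain ⟨h, -, rfl⟩ := Finset.mem_image.mp hu
        exact hY h y hy
      have hpos : 0 < Fintype.card H := Fintype.card_pos
      have mOx : ∀ h : H, ∀ u, h • u ∈ Ox ↔ u ∈ Ox := by
        intro h u
        simp only [Ox, Finset.mem_image, Finset.mem_univ, true_and]
        constructor
        · rintro ⟨g, hg⟩
          exact ⟨h⁻¹ * g, by rw [mul_smul, hg, inv_smul_smul]⟩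
        · rintro ⟨g, rfl⟩
          exact ⟨h * g, by rw [mul_smul]⟩
      have mOy : ∀ h : H, ∀ u, h • u ∈ Oy ↔ u ∈ Oy := by
        intro h u
        simp only [Oy, Finset.mem_image, Finset.mem_univ, true_and]
        constructor
        · rintro ⟨g, hg⟩
          exact ⟨h⁻¹ * g, by rw [mul_smul, hg, inv_smul_smul]⟩
        · rintro ⟨g, rfl⟩
          exact ⟨h * g, by rw [mul_smul]⟩
      have hcX : (X \ Ox).card = n - Fintype.card H := by
        rw [Finset.card_sdiff_of_subset sOx, hXn, cOx]
      have hcY : (Y \ Oy).card = n - Fintype.card H := by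
        rw [Finset.card_sdiff_of_subset sOy, hYn, cOy]
      have hle : Fintype.card H ≤ n := by
        rw [← cOx, ← hXn]; exact Finset.card_le_card sOx
      obtain ⟨f, f1, f2, f3⟩ := ih (n - Fintype.card H) (by omega) (X \ Ox) (Y \ Oy) hcX hcY
        (by
          intro h u hu
          rw [Finset.mem_sdiff] at hu ⊢
          exact ⟨hX h u hu.1, fun hc => hu.2 ((mOx h u).mp hc)⟩)
        (by
          intro h u hu
          rw [Finset.mem_sdiff] at hu ⊢
          exact ⟨hY h u hu.1, fun hc => hu.2 ((mOy h u).mp hc)⟩)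
        (fun h u hu => fX h u (Finset.mem_sdiff.mp hu).1)
        (fun h u hu => fY h u (Finset.mem_sdiff.mp hu).1)
      classical
      let F : U → U := fun u => if hu : ∃ h : H, h • x = u then hu.choose • y else f u
      have FO : ∀ h : H, F (h • x) = h • y := by
        intro h
        have hu : ∃ g : H, g • x = h • x := ⟨h, rfl⟩
        have : F (h • x) = hu.choose • y := dif_pos hu
        rw [this]
        have h2 := hu.choose_spec
        rw [injx h2]
      have FN : ∀ u, u ∉ Ox → F u = f u := by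
        intro u hu
        apply dif_neg
        rintro ⟨h, rfl⟩
        exact hu (Finset.mem_image.mpr ⟨h, Finset.mem_univ _, rfl⟩)
      refine ⟨F, ?_, ?_, ?_⟩
      · intro u hu
        by_cases hO : u ∈ Ox
        · obtain ⟨h, -, rfl⟩ := Finset.mem_image.mp hO
          simp only [FO]
          exact hY h y hy
        · rw [FN u hO]
          exact (Finset.mem_sdiff.mp (f1 u (Finset.mem_sdiff.mpr ⟨hu, hO⟩))).1
      · intro v hv
        by_cases hO : v ∈ Oy
        · obtain ⟨h, -, rfl⟩ := Finset.mem_image.mp hO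
          exact ⟨h • x, hX h x hx, FO h⟩
        · obtain ⟨u, hu, hfu⟩ := f2 v (Finset.mem_sdiff.mpr ⟨hv, hO⟩)
          rw [Finset.mem_sdiff] at hu
          exact ⟨u, hu.1, by rw [FN u hu.2, hfu]⟩
      · intro h u hu
        by_cases hO : u ∈ Ox
        · obtain ⟨g, -, rfl⟩ := Finset.mem_image.mp hO
          simp only [FO]
          rw [← mul_smul, FO, mul_smul]
        · rw [FN u hO, FN (h • u) (fun hc => hO ((mOx h u).mp hc))]
          exact f3 h u (Finset.mem_sdiff.mpr ⟨hu, hO⟩)

end freeSets

/-- The data of a finite group `Θ` acting on a countable set `U` with a base `k`-set `A`: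
`Θ` preserves `A`, acts freely outside of `A`, there are fresh free orbits of arbitrarily high
level, and the fixed points of a nontrivial element lie in each of its invariant `k`-sets. -/
structure Ctx (Θ U : Type) [Group Θ] [MulAction Θ U] [DecidableEq U] (k : ℕ) where
  A : Finset U
  hk : 0 < k
  card_A : A.card = k
  inv_A : ∀ θ : Θ, θ • A = A
  lvl : U → ℕ
  lvl_smul : ∀ (θ : Θ) (u : U), lvl (θ • u) = lvl u
  fresh : ∀ M : ℕ, ∃ v : U, lvl v = M + 1
  lvl_A : ∀ u ∈ A, lvl u = 0
  free : ∀ (θ : Θ) (u : U), θ • u = u → u ∉ A → θ = 1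
  fixsub : ∀ (θ : Θ) (S : Finset U), θ ≠ 1 → S.card = k → θ • S = S →
    ∀ u, θ • u = u → u ∈ S
  faithful : ∀ θ : Θ, (∀ u ∈ A, θ • u = u) → θ = 1

variable {Θ U : Type} [Group Θ] [MulAction Θ U] [DecidableEq U] {k : ℕ}

/-- Equivariant bijection from a `k`-set `R` to the base set `A`. -/
theorem Ctx.exists_map [Finite Θ] (c : Ctx Θ U k) (R : Finset U) (hR : R.card = k) :
    ∃ f : U → U, (∀ u ∈ R, f u ∈ c.A) ∧ (∀ v ∈ c.A, ∃ u ∈ R, f u = v) ∧
      (∀ u ∈ R, ∀ u' ∈ R, f u = f u' → u = u') ∧
      (∀ θ : Θ, θ • R = R → ∀ u ∈ R, f (θ • u) = θ • f u) := by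
  let H := MulAction.stabilizer Θ R
  have hHR : ∀ h : H, (h : Θ) • R = R := fun h => h.2
  have cX : (R \ c.A).card = (R \ c.A).card := rfl
  have cY : (c.A \ R).card = (R \ c.A).card := by
    have h1 := Finset.card_sdiff_add_card_inter R c.A
    have h2 := Finset.card_sdiff_add_card_inter c.A R
    rw [Finset.inter_comm] at h2
    rw [hR] at h1
    rw [c.card_A] at h2
    omega
  have memR : ∀ h : H, ∀ u, (h : Θ) • u ∈ R ↔ u ∈ R := by
    intro h u
    conv_lhs => rw [← hHR h]
    exact Finset.smul_mem_smul_finset_iff (h : Θ)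
  have memA : ∀ h : Θ, ∀ u, h • u ∈ c.A ↔ u ∈ c.A := by
    intro h u
    conv_lhs => rw [← c.inv_A h]
    exact Finset.smul_mem_smul_finset_iff h
  obtain ⟨f, f1, f2, f3⟩ := exists_equivariant (H := H) (R \ c.A).card (R \ c.A) (c.A \ R) cX cY
    (by
      intro h u hu
      rw [Finset.mem_sdiff] at hu ⊢
      exact ⟨(memR h u).mpr hu.1, fun hc => hu.2 ((memA h u).mp hc)⟩)
    (by
      intro h u hu
      rw [Finset.mem_sdiff] at hu ⊢
      exact ⟨(memA h u).mpr hu.1, fun hc => hu.2 ((memR h u).mp hc)⟩)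
    (by
      intro h u hu hfix
      exact Subtype.ext (c.free (h : Θ) u hfix (Finset.mem_sdiff.mp hu).2))
    (by
      intro h u hu hfix
      by_contra hne
      have hne' : (h : Θ) ≠ 1 := fun hc => hne (Subtype.ext hc)
      exact (Finset.mem_sdiff.mp hu).2 (c.fixsub (h : Θ) R hne' hR (hHR h) u hfix))
  let F : U → U := fun u => if u ∈ c.A then u else f u
  have F1 : ∀ u ∈ R, F u ∈ c.A := by
    intro u hu
    by_cases hA : u ∈ c.A
    · simp [F, hA]
    · simp only [F, hA, if_false]
      exact (Finset.mem_sdiff.mp (f1 u (Finset.mem_sdiff.mpr ⟨hu, hA⟩))).1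
  have F2 : ∀ v ∈ c.A, ∃ u ∈ R, F u = v := by
    intro v hv
    by_cases hR' : v ∈ R
    · exact ⟨v, hR', by simp [F, hv]⟩
    · obtain ⟨u, hu, hfu⟩ := f2 v (Finset.mem_sdiff.mpr ⟨hv, hR'⟩)
      rw [Finset.mem_sdiff] at hu
      exact ⟨u, hu.1, by simp [F, hu.2, hfu]⟩
  refine ⟨F, F1, F2, ?_, ?_⟩
  · have him : R.image F = c.A := by
      apply Finset.Subset.antisymm
      · intro v hv
        obtain ⟨u, hu, rfl⟩ := Finset.mem_image.mp hv
        exact F1 u hu
      · intro v hv
        obtain ⟨u, hu, hfu⟩ := F2 v hv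
        exact Finset.mem_image.mpr ⟨u, hu, hfu⟩
    have hinj : Set.InjOn F R := by
      apply Finset.injOn_of_card_image_eq
      rw [him, c.card_A, hR]
    intro u hu u' hu' h
    exact hinj hu hu' h
  · intro θ hθ u hu
    by_cases hA : u ∈ c.A
    · simp only [F, hA, if_true, (memA θ u).mpr hA]
    · have hA' : θ • u ∉ c.A := fun hc => hA ((memA θ u).mp hc)
      simp only [F, hA, if_false, hA']
      exact f3 ⟨θ, hθ⟩ u (Finset.mem_sdiff.mpr ⟨hu, hA⟩)

end Pool.Agent.Lib.MP_f234cd_al
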