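import Pool.Agent.Lib.MP_f234cd_al.GroupPart

set_option autoImplicit false

open scoped Pointwise

namespace Pool.Agent.Lib.MP_f234cd_al

section counting

variable {Θ U : Type} [Group Θ] [MulAction Θ U] [DecidableEq U]

/-- For an element of prime order preserving `S`, the number of fixed points in `S` is congruent
to the size of `S`. -/
theorem card_fix_modEq (η : Θ) (ℓ : ℕ) [Fact ℓ.Prime] (hη : η ^ ℓ = 1) (S : Finset U)
    (hS : η • S = S) : S.card ≡ (S.filter (fun u => η • u = u)).card [MOD ℓ] := by
  have hmem : ∀ u ∈ S, η • u ∈ S := by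
    intro u hu
    have := Finset.smul_mem_smul_finset (a := η) hu
    rwa [hS] at this
  let f : Function.End S := fun x => ⟨η • (x : U), hmem x x.2⟩
  have hpow : ∀ n : ℕ, ∀ x : S, (((f ^ n : Function.End S) x : S) : U) = η ^ n • (x : U) := by
    intro n
    induction n with
    | zero => intro x; simp; rfl
    | succ n ih =>
      intro x
      have : (f ^ (n + 1) : Function.End S) x = (f ^ n : Function.End S) (f x) := by
        rw [pow_succ]; rfl
      rw [this, ih, pow_succ, mul_smul]
  have hf : f ^ ℓ ^ 1 = 1 := by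
    funext x
    apply Subtype.ext
    rw [hpow, pow_one, hη, one_smul]
    rfl
  have key := Equiv.Perm.card_fixedPoints_modEq (f := f) hf
  rw [Fintype.card_coe] at key
  have h2 : Fintype.card (Function.fixedPoints f) = (S.filter (fun u => η • u = u)).card := by
    rw [Fintype.card_of_subtype (p := fun x => x ∈ Function.fixedPoints f)
      (Finset.univ.filter (fun x : S => η • (x : U) = (x : U)))]
    · rw [← Finset.card_map (Function.Embedding.subtype _)]
      congr 1
      ext u
      simp only [Finset.mem_map, Finset.mem_filter, Finset.mem_univ, true_and,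
        Function.Embedding.subtype_apply]
      constructor
      · rintro ⟨x, hx, rfl⟩
        exact ⟨x.2, hx⟩
      · rintro ⟨hu, hx⟩
        exact ⟨⟨u, hu⟩, hx, rfl⟩
    · intro x
      rw [Finset.mem_filter]
      simp only [Finset.mem_univ, true_and]
      constructor
      · intro h
        exact Subtype.ext h
      · intro h
        exact congrArg Subtype.val h
  rw [h2] at key
  exact key

end counting

section ctx

variable (Θ K : Type) [Group Θ] [Finite Θ] [MulAction Θ K] [Fintype K] [DecidableEq K]

/-- The universe on which the group is going to act. -/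
abbrev Univ : Type := K ⊕ (Θ × ℕ)

instance : MulAction Θ (Univ Θ K) where
  smul θ u := match u with
    | Sum.inl x => Sum.inl (θ • x)
    | Sum.inr (η, n) => Sum.inr (θ * η, n)
  one_smul u := by
    rcases u with x | ⟨η, n⟩
    · exact congrArg Sum.inl (one_smul _ _)
    · exact congrArg Sum.inr (by rw [one_mul])
  mul_smul θ θ' u := by
    rcases u with x | ⟨η, n⟩
    · exact congrArg Sum.inl (mul_smul _ _ _)
    · exact congrArg Sum.inr (by rw [mul_assoc])

omit [Finite Θ] [Fintype K] [DecidableEq K] in
theorem smul_inl (θ : Θ) (x : K) : θ • (Sum.inl x : Univ Θ K) = Sum.inl (θ • x) := rfl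

omit [Finite Θ] [Fintype K] [DecidableEq K] in
theorem smul_inr (θ η : Θ) (n : ℕ) :
    θ • (Sum.inr (η, n) : Univ Θ K) = Sum.inr (θ * η, n) := rfl

/-- The level of a point. -/
def level : Univ Θ K → ℕ
  | Sum.inl _ => 0
  | Sum.inr (_, n) => n + 1

variable [DecidableEq Θ]

theorem exists_ctx [Nonempty K] [FaithfulSMul Θ K]
    (hP : ∀ θ : Θ, (orderOf θ).Prime →
      (Finset.univ.filter (fun x : K => θ • x = x)).card < orderOf θ) :
    ∃ c : Ctx Θ (Univ Θ K) (Fintype.card K),
      c.A = Finset.univ.map ⟨Sum.inl, Sum.inl_injective⟩ := by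
  let A : Finset (Univ Θ K) := Finset.univ.map ⟨Sum.inl, Sum.inl_injective⟩
  have memA : ∀ u, u ∈ A ↔ ∃ x, u = Sum.inl x := by
    intro u
    simp only [A, Finset.mem_map, Finset.mem_univ, true_and, Function.Embedding.coeFn_mk]
    exact ⟨fun ⟨x, h⟩ => ⟨x, h.symm⟩, fun ⟨x, h⟩ => ⟨x, h.symm⟩⟩
  have cardA : A.card = Fintype.card K := by
    rw [Finset.card_map, Finset.card_univ]
  have invA : ∀ θ : Θ, θ • A = A := by
    intro θ
    ext u
    rw [Finset.mem_smul_finset]
    constructor
    · rintro ⟨v, hv, rfl⟩
      obtain ⟨x, rfl⟩ := (memA v).mp hv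
      exact (memA _).mpr ⟨θ • x, rfl⟩
    · intro hu
      obtain ⟨x, rfl⟩ := (memA u).mp hu
      exact ⟨Sum.inl (θ⁻¹ • x), (memA _).mpr ⟨_, rfl⟩, by rw [smul_inl, smul_inv_smul]⟩
  have free : ∀ (θ : Θ) (u : Univ Θ K), θ • u = u → u ∉ A → θ = 1 := by
    intro θ u h hu
    rcases u with x | ⟨η, n⟩
    · exact absurd ((memA _).mpr ⟨x, rfl⟩) hu
    · rw [smul_inr] at h
      have := (Prod.mk.inj (Sum.inr.inj h)).1
      exact mul_eq_right.mp this
  have faithful : ∀ θ : Θ, (∀ u ∈ A, θ • u = u) → θ = 1 := by
    intro θ h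
    apply FaithfulSMul.eq_of_smul_eq_smul (α := K)
    intro x
    have := h (Sum.inl x) ((memA _).mpr ⟨x, rfl⟩)
    rw [smul_inl] at this
    rw [one_smul]
    exact Sum.inl_injective this
  have fixsub : ∀ (θ : Θ) (S : Finset (Univ Θ K)), θ ≠ 1 → S.card = Fintype.card K →
      θ • S = S → ∀ u, θ • u = u → u ∈ S := by
    intro θ S hne hcard hS u hu
    have hord : orderOf θ ≠ 1 := by rwa [Ne, orderOf_eq_one_iff]
    obtain ⟨ℓ, hℓ, hdvd⟩ := Nat.exists_prime_and_dvd hord
    have hfin : 0 < orderOf θ := orderOf_pos θ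
    let η : Θ := θ ^ (orderOf θ / ℓ)
    have hη : orderOf η = ℓ := by
      exact orderOf_pow_orderOf_div hfin.ne' hdvd
    have powS : ∀ n : ℕ, θ ^ n • S = S := by
      intro n
      induction n with
      | zero => rw [pow_zero, one_smul]
      | succ n ih => rw [pow_succ, mul_smul, hS, ih]
    have powu : ∀ n : ℕ, θ ^ n • u = u := by
      intro n
      induction n with
      | zero => rw [pow_zero, one_smul]
      | succ n ih => rw [pow_succ, mul_smul, hu, ih]
    have hηS : η • S = S := powS _
    have hηu : η • u = u := powu _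
    have hη1 : η ^ ℓ = 1 := by rw [← hη]; exact pow_orderOf_eq_one η
    have hηne : η ≠ 1 := by
      intro h
      rw [h, orderOf_one] at hη
      exact hℓ.one_lt.ne hη
    have : Fact ℓ.Prime := ⟨hℓ⟩
    have m1 := card_fix_modEq η ℓ hη1 S hηS
    have m2 := card_fix_modEq η ℓ hη1 A (invA η)
    rw [hcard] at m1
    rw [cardA] at m2
    have m3 := m1.symm.trans m2
    -- the fixed points in A
    have hA : (A.filter (fun u => η • u = u)).card < ℓ := by
      have h1 := hP η (by rw [hη]; exact hℓ)
      rw [hη] at h1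
      refine lt_of_le_of_lt (le_of_eq ?_) h1
      have : A.filter (fun u => η • u = u)
          = (Finset.univ.filter (fun x : K => η • x = x)).map ⟨Sum.inl, Sum.inl_injective⟩ := by
        ext v
        simp only [Finset.mem_filter, Finset.mem_map, Finset.mem_univ, true_and,
          Function.Embedding.coeFn_mk]
        constructor
        · rintro ⟨h2, h3⟩
          obtain ⟨x, rfl⟩ := (memA v).mp h2
          exact ⟨x, Sum.inl_injective h3, rfl⟩
        · rintro ⟨x, hx, rfl⟩
          exact ⟨(memA _).mpr ⟨x, rfl⟩, congrArg Sum.inl hx⟩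
      rw [this, Finset.card_map]
    have hsub : S.filter (fun u => η • u = u) ⊆ A.filter (fun u => η • u = u) := by
      intro v hv
      rw [Finset.mem_filter] at hv ⊢
      refine ⟨?_, hv.2⟩
      by_contra hc
      exact hηne (free η v hv.2 hc)
    have hle := Finset.card_le_card hsub
    have heq : (S.filter (fun u => η • u = u)).card = (A.filter (fun u => η • u = u)).card :=
      Nat.ModEq.eq_of_lt_of_lt m3 (lt_of_le_of_lt hle hA) hA
    have hset := Finset.eq_of_subset_of_card_le hsub (le_of_eq heq.symm)
    have huA : u ∈ A.filter (fun u => η • u = u) := by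
      rw [Finset.mem_filter]
      refine ⟨?_, hηu⟩
      by_contra hc
      exact hηne (free η u hηu hc)
    rw [← hset] at huA
    exact (Finset.mem_filter.mp huA).1
  refine ⟨{ A := A, hk := Fintype.card_pos, card_A := cardA, inv_A := invA, lvl := level Θ K,
            lvl_smul := ?_, fresh := ?_, lvl_A := ?_, free := free, fixsub := fixsub,
            faithful := faithful }, rfl⟩
  · intro θ u
    rcases u with x | ⟨η, n⟩ <;> rfl
  · intro M
    exact ⟨Sum.inr (1, M), rfl⟩
  · intro u hu
    obtain ⟨x, rfl⟩ := (memA u).mp hu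
    rfl

end ctx

end Pool.Agent.Lib.MP_f234cd_al
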