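import Mathlib

set_option autoImplicit false

namespace Pool.Agent.Lib.MP_f234cd_al

/-- The action of `G` on `U` is `k`-sharp: the only element of `G` fixing `k` distinct points
of `U` is the identity. -/
def IsKSharp (k : ℕ) (G U : Type) [Group G] [MulAction G U] : Prop :=
  ∀ g : G, (∃ s : Finset U, s.card = k ∧ ∀ x ∈ s, g • x = x) → g = 1

/-- The induced action of `G` on the set of `k`-element subsets of `U` is transitive. -/
def IsTransitiveOnKSets (k : ℕ) (G U : Type) [Group G] [MulAction G U] : Prop :=
  ∀ s t : Finset U, s.card = k → t.card = k →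
    ∃ g : G, (fun x => g • x) '' (s : Set U) = (t : Set U)

/-- The number of orbits of `G` on the `k`-tuples of pairwise distinct elements of `U`
(injective maps `Fin k ↪ U`, with the coordinatewise action). -/
noncomputable def orbitCount (k : ℕ) (G U : Type) [Group G] [MulAction G U] : ℕ :=
  Nat.card (MulAction.orbitRel.Quotient G (Fin k ↪ U))

/-- The quantity `τ'(k)`: the minimum, over all groups `G` and all `k`-sharp actions of `G` on
a countably infinite set (here `ℕ`) which are transitive on `k`-element subsets, of the number of
orbits of `G` on `k`-tuples of distinct elements. -/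
noncomputable def tauPrime (k : ℕ) : ℕ :=
  sInf {n : ℕ | ∃ (G : Type) (_ : Group G) (_ : MulAction G ℕ),
    IsKSharp k G ℕ ∧ IsTransitiveOnKSets k G ℕ ∧ n = orbitCount k G ℕ}

end Pool.Agent.Lib.MP_f234cd_al
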