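import Pool.Agent.Lib.MP_f234cd_al.Context
import Pool.Agent.Lib.MP_f234cd_al.Defs

set_option autoImplicit false

open scoped Pointwise

namespace Pool.Agent.Lib.MP_f234cd_al

/-- An embedding with range inside a finite set of the right size is a bijection onto it. -/
theorem exists_equiv_of_range {k : ℕ} {U K : Type} [Fintype K] (hK : Fintype.card K = k)
    (f : Fin k ↪ U) (j : K ↪ U) (h : ∀ i, ∃ x, j x = f i) :
    ∃ σ : Fin k ≃ K, ∀ i, f i = j (σ i) := by
  choose s hs using h
  have hinj : Function.Injective s := by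
    intro a b hab
    apply f.injective
    rw [← hs a, ← hs b, hab]
  have hbij : Function.Bijective s := by
    rw [Fintype.bijective_iff_injective_and_card]
    exact ⟨hinj, by rw [Fintype.card_fin, hK]⟩
  exact ⟨Equiv.ofBijective s hbij, fun i => (hs i).symm⟩

/-- For an action transitive on `k`-sets the number of orbits on `k`-tuples is finite and
positive. -/
theorem orbitCount_pos {k : ℕ} {G : Type} [Group G] [MulAction G ℕ]
    (h : IsTransitiveOnKSets k G ℕ) : 0 < orbitCount k G ℕ := by
  classical
  let f0 : Fin k ↪ ℕ := Fin.valEmbedding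
  let q : (Fin k ≃ Fin k) → MulAction.orbitRel.Quotient G (Fin k ↪ ℕ) := fun σ =>
    Quotient.mk'' (σ.toEmbedding.trans f0)
  have hq : Function.Surjective q := by
    intro o
    induction o using Quotient.inductionOn' with
    | h f =>
      obtain ⟨g, hg⟩ := h (Finset.univ.map f) (Finset.univ.map f0) (by simp) (by simp)
      have h1 : ∀ i, ∃ x, f0 x = (g • f) i := by
        intro i
        have h2 : g • f i ∈ (fun x => g • x) '' ((Finset.univ.map f : Finset ℕ) : Set ℕ) :=
          ⟨f i, by simp, rfl⟩
        rw [hg] at h2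
        simp only [Finset.coe_map, Finset.coe_univ, Set.image_univ, Set.mem_range] at h2
        exact h2
      obtain ⟨σ, hσ⟩ := exists_equiv_of_range (by simp) (g • f) f0 h1
      refine ⟨σ, ?_⟩
      have h3 : σ.toEmbedding.trans f0 = g • f := by
        ext i
        exact (hσ i).symm
      change Quotient.mk'' (σ.toEmbedding.trans f0) = Quotient.mk'' f
      rw [h3, Quotient.eq'']
      exact ⟨g, rfl⟩
  have hfin : Finite (MulAction.orbitRel.Quotient G (Fin k ↪ ℕ)) := Finite.of_surjective q hq
  have hne : Nonempty (MulAction.orbitRel.Quotient G (Fin k ↪ ℕ)) := ⟨q (Equiv.refl _)⟩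
  exact Nat.card_pos

section main

variable (Θ K : Type) [Group Θ] [Finite Θ] [MulAction Θ K] [Fintype K] [DecidableEq K]
  [DecidableEq Θ]

/-- Main counting statement: a finite permutation group `Θ` on `K` in which each element of
prime order `ℓ` has fewer than `ℓ` fixed points gives `τ'(|K|) |Θ| ≤ |K|!`. -/
theorem tauPrime_bound [Nonempty K] [FaithfulSMul Θ K]
    (hP : ∀ θ : Θ, (orderOf θ).Prime →
      (Finset.univ.filter (fun x : K => θ • x = x)).card < orderOf θ) :
    0 < tauPrime (Fintype.card K) ∧
      tauPrime (Fintype.card K) * Nat.card Θ ≤ (Fintype.card K).factorial := by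
  classical
  obtain ⟨c, hc⟩ := exists_ctx Θ K hP
  have hcount : Countable Θ := Finite.to_countable
  obtain ⟨H, hH1, hH2, hH3⟩ := exists_group c
  have hinf : Infinite (Univ Θ K) := by
    apply Infinite.of_injective (fun n : ℕ => (Sum.inr ((1 : Θ), n) : Univ Θ K))
    intro a b hab
    exact (Prod.mk.inj (Sum.inr.inj hab)).2
  obtain ⟨e⟩ : Nonempty (Univ Θ K ≃ ℕ) := nonempty_equiv_of_countable
  let act : MulAction H ℕ :=
    { smul := fun g n => e (g.1 (e.symm n))
      one_smul := by
        intro n
        change e ((1 : Equiv.Perm (Univ Θ K)) (e.symm n)) = n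
        simp
      mul_smul := by
        intro g h n
        change e ((g.1 * h.1) (e.symm n)) = e (g.1 (e.symm (e (h.1 (e.symm n)))))
        simp }
  have act_def : ∀ (g : H) (n : ℕ), g • n = e (g.1 (e.symm n)) := fun _ _ => rfl
  have hsharp : IsKSharp (Fintype.card K) H ℕ := by
    rintro g ⟨s, hs, hfix⟩
    apply Subtype.ext
    apply hH2 g.1 g.2 (s.map e.symm.toEmbedding) (by rw [Finset.card_map, hs])
    intro u hu
    rw [Finset.mem_map] at hu
    obtain ⟨n, hn, rfl⟩ := hu
    have := hfix n hn
    rw [act_def] at this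
    have h2 := congrArg e.symm this
    rw [Equiv.symm_apply_apply] at h2
    exact h2
  have htrans : IsTransitiveOnKSets (Fintype.card K) H ℕ := by
    intro s t hs ht
    obtain ⟨g, hg, him⟩ := hH3 (s.map e.symm.toEmbedding) (t.map e.symm.toEmbedding)
      (by rw [Finset.card_map, hs]) (by rw [Finset.card_map, ht])
    refine ⟨⟨g, hg⟩, ?_⟩
    ext n
    constructor
    · rintro ⟨m, hm, rfl⟩
      have h1 : g (e.symm m) ∈ (s.map e.symm.toEmbedding).image g :=
        Finset.mem_image_of_mem _ (Finset.mem_map_of_mem _ hm)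
      rw [him, Finset.mem_map] at h1
      obtain ⟨r, hr, hr'⟩ := h1
      change e (g (e.symm m)) ∈ (t : Set ℕ)
      rw [← hr']
      simpa using hr
    · intro hn
      have h1 : e.symm n ∈ t.map e.symm.toEmbedding := Finset.mem_map_of_mem _ hn
      rw [← him, Finset.mem_image] at h1
      obtain ⟨u, hu, hu'⟩ := h1
      rw [Finset.mem_map] at hu
      obtain ⟨m, hm, rfl⟩ := hu
      refine ⟨m, hm, ?_⟩
      change e (g (e.symm m)) = n
      have : g (e.symm m) = e.symm n := hu'
      rw [this, Equiv.apply_symm_apply]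
  -- the base embedding
  let j : K ↪ ℕ := ⟨fun x => e (Sum.inl x), fun a b hab => Sum.inl_injective (e.injective hab)⟩
  let q : (Fin (Fintype.card K) ≃ K) → MulAction.orbitRel.Quotient H (Fin (Fintype.card K) ↪ ℕ) :=
    fun σ => Quotient.mk'' (σ.toEmbedding.trans j)
  have hq : Function.Surjective q := by
    intro o
    induction o using Quotient.inductionOn' with
    | h f =>
      obtain ⟨g, hg⟩ := htrans (Finset.univ.map f) (Finset.univ.map j) (by simp)
        (by rw [Finset.card_map, Finset.card_univ])
      have h1 : ∀ i, ∃ x, j x = (g • f) i := by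
        intro i
        have h2 : g • f i ∈ (fun x => g • x) '' ((Finset.univ.map f : Finset ℕ) : Set ℕ) :=
          ⟨f i, by simp, rfl⟩
        rw [hg] at h2
        simp only [Finset.coe_map, Finset.coe_univ, Set.image_univ, Set.mem_range] at h2
        exact h2
      obtain ⟨σ, hσ⟩ := exists_equiv_of_range rfl (g • f) j h1
      refine ⟨σ, ?_⟩
      have h3 : σ.toEmbedding.trans j = g • f := by
        ext i
        exact (hσ i).symm
      change Quotient.mk'' (σ.toEmbedding.trans j) = Quotient.mk'' f
      rw [h3, Quotient.eq'']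
      exact ⟨g, rfl⟩
  have hfin : Finite (MulAction.orbitRel.Quotient H (Fin (Fintype.card K) ↪ ℕ)) :=
    Finite.of_surjective q hq
  choose r hr using hq
  let Φ : (MulAction.orbitRel.Quotient H (Fin (Fintype.card K) ↪ ℕ)) × Θ →
      (Fin (Fintype.card K) ≃ K) := fun x => (r x.1).trans (MulAction.toPerm x.2)
  have hqΦ : ∀ x, q (Φ x) = x.1 := by
    rintro ⟨o, θ⟩
    conv_rhs => rw [← hr o]
    change Quotient.mk'' ((Φ (o, θ)).toEmbedding.trans j) = Quotient.mk'' ((r o).toEmbedding.trans j)
    rw [Quotient.eq'']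
    refine ⟨⟨MulAction.toPerm θ, hH1 θ⟩, ?_⟩
    ext i
    change e (θ • (e.symm (e (Sum.inl (r o i) : Univ Θ K)))) = e (Sum.inl (θ • r o i))
    rw [Equiv.symm_apply_apply, smul_inl]
  have hΦ : Function.Injective Φ := by
    rintro ⟨o, θ⟩ ⟨o', θ'⟩ hxy
    have h1 : o = o' := by
      have := congrArg q hxy
      rwa [hqΦ, hqΦ] at this
    subst h1
    have h2 : θ = θ' := by
      apply FaithfulSMul.eq_of_smul_eq_smul (α := K)
      intro x
      have h3 := congrArg (fun σ => σ ((r o).symm x)) hxy
      change θ • (r o ((r o).symm x)) = θ' • (r o ((r o).symm x)) at h3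
      rwa [Equiv.apply_symm_apply] at h3
    rw [h2]
  have hle : orbitCount (Fintype.card K) H ℕ * Nat.card Θ ≤ (Fintype.card K).factorial := by
    have h1 := Nat.card_le_card_of_injective Φ hΦ
    rw [Nat.card_prod] at h1
    refine le_trans h1 (le_of_eq ?_)
    rw [Nat.card_eq_fintype_card, Fintype.card_equiv (Fintype.equivFin K).symm, Fintype.card_fin]
  have hmem : orbitCount (Fintype.card K) H ℕ ∈ {n : ℕ | ∃ (G : Type) (_ : Group G)
      (_ : MulAction G ℕ), IsKSharp (Fintype.card K) G ℕ ∧
      IsTransitiveOnKSets (Fintype.card K) G ℕ ∧ n = orbitCount (Fintype.card K) G ℕ} :=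
    ⟨H, inferInstance, act, hsharp, htrans, rfl⟩
  constructor
  · obtain ⟨G, i1, i2, -, h2, h3⟩ := Nat.sInf_mem ⟨_, hmem⟩
    have : tauPrime (Fintype.card K) = orbitCount (Fintype.card K) G ℕ := h3
    rw [this]
    exact orbitCount_pos h2
  · have h1 : tauPrime (Fintype.card K) ≤ orbitCount (Fintype.card K) H ℕ := Nat.sInf_le hmem
    exact le_trans (Nat.mul_le_mul_right _ h1) hle

end main

end Pool.Agent.Lib.MP_f234cd_al
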