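import Pool.Agent.Lib.MP_f234cd_al.Stage

set_option autoImplicit false

open scoped Pointwise

namespace Pool.Agent.Lib.MP_f234cd_al

variable {Θ U : Type} [Group Θ] [MulAction Θ U] [DecidableEq U] {k : ℕ}

namespace Stage

variable {c : Ctx Θ U k}

/-- Step (a): extend the partial injection of an active letter at one more point `u`. -/
theorem exists_extend (s : Stage c) (R : Finset U) (b : Bool) (u : U)
    (hact : s.L R R true 1) (hu : ∀ w, ¬ s.T R b u w) :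
    ∃ t : Stage c, s ≤ t ∧ ∃ w, t.T R b u w := by
  let M : ℕ := max s.N (c.lvl u)
  have hMN : s.N ≤ M := le_max_left _ _
  have hMu : c.lvl u ≤ M := le_max_right _ _
  obtain ⟨v, hv⟩ := c.fresh M
  -- fresh facts
  have fr1 : ∀ (θ : Θ) Q b' w, ¬ s.T Q b' (θ • v) w := by
    intro θ Q b' w h
    have := s.Tlvl _ _ _ _ h
    rw [c.lvl_smul, hv] at this
    omega
  have fr2 : ∀ (θ : Θ) Q b' w, ¬ s.T Q b' w (θ • v) := by
    intro θ Q b' w h
    exact fr1 θ _ _ _ (s.Tinv _ _ _ _ h)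
  have fr3 : ∀ (θ η : Θ), θ • u ≠ η • v := by
    intro θ η h
    have := congrArg c.lvl h
    rw [c.lvl_smul, c.lvl_smul, hv] at this
    omega
  have hvA : v ∉ c.A := by
    intro h
    have := c.lvl_A v h
    omega
  have fr4 : ∀ (θ η : Θ), θ • v = η • v → θ = η := by
    intro θ η h
    have h1 : (η⁻¹ * θ) • v = v := by rw [mul_smul, h, inv_smul_smul]
    have h2 := c.free _ _ h1 hvA
    exact (eq_of_inv_mul_eq_one h2).symm
  have hRcard : R.card = k := s.Lcard _ _ _ _ hact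
  have hnonfree : ∀ θ : Θ, θ • R = R → θ • u = u → θ = 1 := by
    intro θ h1 h2
    by_contra hne
    have hrel := s.Lact R hact
    cases b with
    | true =>
      have hmem : u ∈ R := c.fixsub θ R hne hRcard h1 u h2
      obtain ⟨w, -, hw⟩ := hrel.1 u hmem
      exact hu w hw
    | false =>
      have hmem : u ∈ c.A := by
        by_contra hc
        exact hne (c.free θ u h2 hc)
      obtain ⟨w, -, hw⟩ := hrel.2 u hmem
      exact hu w (s.Tinv _ _ _ _ hw)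
  have fr5 : ∀ (θ η : Θ), θ • R = η • R → θ • u = η • u → θ = η := by
    intro θ η h1 h2
    have h3 : (θ⁻¹ * η) • R = R := smul_set_eq_iff.mp h1
    have h4 : (θ⁻¹ * η) • u = u := by rw [mul_smul, ← h2, inv_smul_smul]
    have h5 := hnonfree _ h3 h4
    exact eq_of_inv_mul_eq_one h5
  have huθ : ∀ (θ : Θ) w, ¬ s.T (θ • R) b (θ • u) w := by
    intro θ w h
    have := s.Teq θ⁻¹ _ _ _ _ h
    rw [inv_smul_smul, inv_smul_smul] at this
    exact hu _ this
  let T' : Finset U → Bool → U → U → Prop := fun Q d x y => s.T Q d x y ∨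
    (d = b ∧ ∃ θ : Θ, Q = θ • R ∧ x = θ • u ∧ y = θ • v) ∨
    (d = (!b) ∧ ∃ θ : Θ, Q = θ • R ∧ x = θ • v ∧ y = θ • u)
  have Tinv' : ∀ Q d x y, T' Q d x y → T' Q (!d) y x := by
    intro Q d x y h
    rcases h with h | ⟨rfl, θ, hQ, hx, hy⟩ | ⟨rfl, θ, hQ, hx, hy⟩
    · exact Or.inl (s.Tinv _ _ _ _ h)
    · exact Or.inr (Or.inr ⟨rfl, θ, hQ, hy, hx⟩)
    · exact Or.inr (Or.inl ⟨by simp, θ, hQ, hy, hx⟩)
  have hbb : ∀ d : Bool, d = b → d = (!b) → False := by
    intro d h1 h2; rw [h1] at h2; cases b <;> simp at h2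
  have Tfun' : ∀ Q d x y y', T' Q d x y → T' Q d x y' → y = y' := by
    intro Q d x y y' h h'
    rcases h with h | ⟨hd, θ, hQ, hx, hy⟩ | ⟨hd, θ, hQ, hx, hy⟩
    · rcases h' with h' | ⟨hd', η, hQ', hx', hy'⟩ | ⟨hd', η, hQ', hx', hy'⟩
      · exact s.Tfun _ _ _ _ _ h h'
      · subst hd' hQ' hx'; exact absurd h (huθ _ _)
      · subst hx'; exact absurd h (fr1 _ _ _ _)
    · rcases h' with h' | ⟨hd', η, hQ', hx', hy'⟩ | ⟨hd', η, hQ', hx', hy'⟩
      · subst hd hQ hx; exact absurd h' (huθ _ _)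
      · have := fr5 θ η (hQ ▸ hQ') (hx ▸ hx')
        rw [hy, hy', this]
      · exact (hbb d hd hd').elim
    · rcases h' with h' | ⟨hd', η, hQ', hx', hy'⟩ | ⟨hd', η, hQ', hx', hy'⟩
      · subst hx; exact absurd h' (fr1 _ _ _ _)
      · exact (hbb d hd' hd).elim
      · have := fr4 θ η (hx ▸ hx')
        rw [hy, hy', this]
  have Tinj' : ∀ Q d x x' y, T' Q d x y → T' Q d x' y → x = x' := fun Q d x x' y h h' =>
    Tfun' _ _ _ _ _ (Tinv' _ _ _ _ h) (Tinv' _ _ _ _ h')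
  have Teq' : ∀ (θ : Θ) Q d x y, T' Q d x y → T' (θ • Q) d (θ • x) (θ • y) := by
    intro θ Q d x y h
    rcases h with h | ⟨hd, η, rfl, rfl, rfl⟩ | ⟨hd, η, rfl, rfl, rfl⟩
    · exact Or.inl (s.Teq _ _ _ _ _ h)
    · exact Or.inr (Or.inl ⟨hd, θ * η, (mul_smul _ _ _).symm, (mul_smul _ _ _).symm,
        (mul_smul _ _ _).symm⟩)
    · exact Or.inr (Or.inr ⟨hd, θ * η, (mul_smul _ _ _).symm, (mul_smul _ _ _).symm,
        (mul_smul _ _ _).symm⟩)
  -- the letters of edges at a fresh point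
  have key : ∀ (θ : Θ) Q d y, T' Q d (θ • v) y → Q = θ • R ∧ d = (!b) := by
    intro θ Q d y h
    rcases h with h | ⟨hd, η, hQ, hx, hy⟩ | ⟨hd, η, hQ, hx, hy⟩
    · exact absurd h (fr1 _ _ _ _)
    · exact absurd hx.symm (fr3 _ _)
    · have := fr4 _ _ hx
      subst this
      exact ⟨hQ, hd⟩
  have key2 : ∀ (θ η : Θ) y, ¬ T' (η • R) (!b) y (θ • v) := by
    intro θ η y h
    have h' := Tinv' _ _ _ _ h
    rw [Bool.not_not] at h'
    have := (key _ _ _ _ h').2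
    exact hbb b rfl this
  have RelT : ∀ Q d S S', RelOn (T' Q d) S S' → RelOn (T' Q (!d)) S' S := by
    intro Q d S S' h
    exact h.symm (fun _ _ h => Tinv' _ _ _ _ h)
  let L' : Finset U → Finset U → Bool → ℕ → Prop := fun S Q d n => s.L S Q d n ∨
    (d = (!b) ∧ n = M + 2 ∧ S.card = k ∧ ∃ θ : Θ, Q = θ • R ∧ θ • v ∈ S ∧
      ∃ S', RelOn (T' Q d) S S')
  -- an old labelled set contains no fresh point
  have oldnofresh : ∀ S Q d n, s.L S Q d n → ∀ θ : Θ, θ • v ∉ S := by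
    intro S Q d n h θ hmem
    obtain ⟨S', hS'⟩ := s.Lpar _ _ _ _ h
    obtain ⟨w, -, hw⟩ := hS'.1 _ hmem
    exact fr1 _ _ _ _ hw
  have hle : ∀ S Q d n, L' S Q d n → n ≤ M + 2 := by
    intro S Q d n h
    rcases h with h | ⟨-, rfl, -⟩
    · have := s.Lle _ _ _ _ h
      omega
    · exact le_rfl
  refine ⟨{ T := T', L := L', N := M + 2, Tinv := Tinv', Tfun := Tfun', Teq := Teq', Tlvl := ?_,
            Lle := hle, Luniq := ?_, Leq := ?_, Tact := ?_, Lact := ?_, Lcard := ?_, Lpar := ?_,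
            Lrk := ?_, Ledge := ?_, LA := ?_ }, ⟨fun _ _ _ _ h => Or.inl h,
            fun _ _ _ _ h => Or.inl h⟩, v, Or.inr (Or.inl ⟨rfl, 1, by simp⟩)⟩
  · intro Q d x y h
    rcases h with h | ⟨hd, η, rfl, rfl, rfl⟩ | ⟨hd, η, rfl, rfl, rfl⟩
    · have := s.Tlvl _ _ _ _ h
      omega
    · rw [c.lvl_smul]; omega
    · rw [c.lvl_smul, hv]; omega
  · -- uniqueness
    intro S Q d n Q' d' n' h h'
    rcases h with h | ⟨hd, hn, hcard, θ, hQ, hmem, S1, hS1⟩
    · rcases h' with h' | ⟨hd', hn', hcard', η, hQ', hmem', S1', hS1'⟩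
      · exact s.Luniq _ _ _ _ _ _ _ h h'
      · exact absurd hmem' (oldnofresh _ _ _ _ h η)
    · rcases h' with h' | ⟨hd', hn', hcard', η, hQ', hmem', S1', hS1'⟩
      · exact absurd hmem (oldnofresh _ _ _ _ h' θ)
      · obtain ⟨w, -, hw⟩ := hS1.1 _ hmem'
        have := (key _ _ _ _ hw).1
        exact ⟨by rw [this, hQ'], by rw [hd, hd'], by rw [hn, hn']⟩
  · intro θ S Q d n h
    rcases h with h | ⟨hd, hn, hcard, η, hQ, hmem, S1, hS1⟩
    · exact Or.inl (s.Leq _ _ _ _ _ h)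
    · refine Or.inr ⟨hd, hn, by rw [Finset.card_smul_finset, hcard], θ * η, by rw [hQ, mul_smul],
        by rw [mul_smul]; exact Finset.smul_mem_smul_finset hmem, θ • S1, ?_, ?_⟩
      · intro x hx
        rw [Finset.mem_smul_finset] at hx
        obtain ⟨x', hx', rfl⟩ := hx
        obtain ⟨y, hy, hxy⟩ := hS1.1 x' hx'
        exact ⟨θ • y, Finset.smul_mem_smul_finset hy, Teq' _ _ _ _ _ hxy⟩
      · intro x hx
        rw [Finset.mem_smul_finset] at hx
        obtain ⟨x', hx', rfl⟩ := hx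
        obtain ⟨y, hy, hxy⟩ := hS1.2 x' hx'
        exact ⟨θ • y, Finset.smul_mem_smul_finset hy, Teq' _ _ _ _ _ hxy⟩
  · intro Q d x y h
    rcases h with h | ⟨hd, η, rfl, rfl, rfl⟩ | ⟨hd, η, rfl, rfl, rfl⟩
    · exact Or.inl (s.Tact _ _ _ _ h)
    · exact Or.inl (s.Leq _ _ _ _ _ hact)
    · exact Or.inl (s.Leq _ _ _ _ _ hact)
  · intro Q h
    rcases h with h | ⟨-, hn, -⟩
    · exact (s.Lact Q h).mono (fun _ _ h => Or.inl h)
    · omega
  · intro S Q d n h
    rcases h with h | ⟨-, -, hcard, -⟩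
    · exact s.Lcard _ _ _ _ h
    · exact hcard
  · intro S Q d n h
    rcases h with h | ⟨-, -, -, θ, -, -, S1, hS1⟩
    · obtain ⟨S', hS'⟩ := s.Lpar _ _ _ _ h
      exact ⟨S', hS'.mono (fun _ _ h => Or.inl h)⟩
    · exact ⟨S1, hS1⟩
  · -- rank
    intro S Q d n S' h hrel
    rcases h with h | ⟨hd, hn, hcard, θ, hQ, hmem, -⟩
    · obtain ⟨S'', hS''⟩ := s.Lpar _ _ _ _ h
      have hEq : S' = S'' := RelOn.unique (Tfun' Q d) hrel (hS''.mono (fun _ _ h => Or.inl h))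
      subst hEq
      rcases s.Lrk _ _ _ _ _ h hS'' with hA | ⟨h2, hlt⟩
      · exact Or.inl hA
      · refine Or.inr ⟨h2, ?_⟩
        intro R' b' n' hL
        rcases hL with hL | ⟨-, -, -, η, -, hmem', -⟩
        · exact hlt _ _ _ hL
        · obtain ⟨w, -, hw⟩ := hS''.2 _ hmem'
          exact absurd hw (fr2 _ _ _ _)
    · right
      refine ⟨by omega, ?_⟩
      intro R' b' n' hL
      rcases hL with hL | ⟨-, -, -, η, -, hmem', -⟩
      · have := s.Lle _ _ _ _ hL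
        omega
      · obtain ⟨w, -, hw⟩ := hrel.2 _ hmem'
        rw [hd, hQ] at hw
        exact absurd hw (key2 _ _ _)
  · -- edges
    intro Q d S S' hrel hS
    have hS'card : S'.card = k := by
      rw [← RelOn.card_eq (Tfun' Q d) (Tinj' Q d) hrel, hS]
    by_cases h1 : ∃ θ : Θ, θ • v ∈ S
    · obtain ⟨θ, hθ⟩ := h1
      obtain ⟨w, -, hw⟩ := hrel.1 _ hθ
      obtain ⟨hQ, hd⟩ := key _ _ _ _ hw
      exact Or.inl ⟨M + 2, Or.inr ⟨hd, rfl, hS, θ, hQ, hθ, S', hrel⟩⟩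
    · by_cases h2 : ∃ θ : Θ, θ • v ∈ S'
      · obtain ⟨θ, hθ⟩ := h2
        have hrel' := RelT _ _ _ _ hrel
        obtain ⟨w, -, hw⟩ := hrel'.1 _ hθ
        obtain ⟨hQ, hd⟩ := key _ _ _ _ hw
        exact Or.inr ⟨M + 2, Or.inr ⟨hd, rfl, hS'card, θ, hQ, hθ, S, hrel'⟩⟩
      · have hold : RelOn (s.T Q d) S S' := by
          constructor
          · intro x hx
            obtain ⟨y, hy, hxy⟩ := hrel.1 x hx
            refine ⟨y, hy, ?_⟩
            rcases hxy with h | ⟨hd, η, rfl, rfl, rfl⟩ | ⟨hd, η, rfl, rfl, rfl⟩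
            · exact h
            · exact absurd ⟨η, hy⟩ h2
            · exact absurd ⟨η, hx⟩ h1
          · intro y hy
            obtain ⟨x, hx, hxy⟩ := hrel.2 y hy
            refine ⟨x, hx, ?_⟩
            rcases hxy with h | ⟨hd, η, rfl, rfl, rfl⟩ | ⟨hd, η, rfl, rfl, rfl⟩
            · exact h
            · exact absurd ⟨η, hy⟩ h2
            · exact absurd ⟨η, hx⟩ h1
        rcases s.Ledge _ _ _ _ hold hS with ⟨n, h⟩ | ⟨n, h⟩
        · exact Or.inl ⟨n, Or.inl h⟩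
        · exact Or.inr ⟨n, Or.inl h⟩
  · intro Q d n h
    rcases h with h | ⟨-, -, -, θ, -, hmem, -⟩
    · exact s.LA _ _ _ h
    · have := c.lvl_A _ hmem
      rw [c.lvl_smul, hv] at this
      omega

end Stage

end Pool.Agent.Lib.MP_f234cd_al
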