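import Pool.Agent.Lib.MP_f234cd_al.Limit

set_option autoImplicit false

open scoped Pointwise

namespace Pool.Agent.Lib.MP_f234cd_al

variable {Θ U : Type} [Group Θ] [MulAction Θ U] [DecidableEq U] {k : ℕ}

namespace Final

variable {c : Ctx Θ U k} (F : Final c)

/-- The permutation `y` is the graph of the letter `(R, b)`. -/
def Graph (R : Finset U) (b : Bool) (y : Equiv.Perm U) : Prop :=
  ∀ u v, F.T R b u v ↔ y u = v

theorem exists_graph (R : Finset U) (b : Bool) (h : F.L R R true 1) :
    ∃ y : Equiv.Perm U, F.Graph R b y := by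
  choose f hf using fun u => F.Tot R h b u
  choose g hg using fun u => F.Tot R h (!b) u
  refine ⟨⟨f, g, ?_, ?_⟩, ?_⟩
  · intro u
    exact F.Tfun _ _ _ _ _ (hg (f u)) (F.Tinv _ _ _ _ (hf u))
  · intro u
    have h1 := F.Tinv _ _ _ _ (hg u)
    rw [Bool.not_not] at h1
    exact F.Tfun _ _ _ _ _ (hf (g u)) h1
  · intro u v
    constructor
    · intro h1
      exact F.Tfun _ _ _ _ _ (hf u) h1
    · rintro rfl
      exact hf u

theorem graph_inv {R : Finset U} {b : Bool} {y : Equiv.Perm U} (h : F.Graph R b y) :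
    F.Graph R (!b) y⁻¹ := by
  intro u v
  rw [Equiv.Perm.inv_eq_iff_eq, eq_comm, ← h]
  constructor
  · intro h1
    have := F.Tinv _ _ _ _ h1
    rwa [Bool.not_not] at this
  · exact F.Tinv _ _ _ _

theorem graph_unique {R : Finset U} {b : Bool} {y z : Equiv.Perm U} (h : F.Graph R b y)
    (h' : F.Graph R b z) : y = z := by
  ext u
  exact ((h' u (y u)).mp ((h u (y u)).mpr rfl)).symm

theorem graph_smul {R : Finset U} {b : Bool} {y : Equiv.Perm U} (θ : Θ) (h : F.Graph R b y) :
    F.Graph (θ • R) b (MulAction.toPerm θ * y * (MulAction.toPerm θ)⁻¹) := by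
  intro u v
  have key : ∀ (η : Θ) Q x z, F.T Q b x z → F.T (η • Q) b (η • x) (η • z) :=
    fun η Q x z => F.Teq η Q b x z
  have e : (MulAction.toPerm θ * y * (MulAction.toPerm θ)⁻¹ : Equiv.Perm U) u
      = θ • y (θ⁻¹ • u) := rfl
  rw [e]
  constructor
  · intro h1
    have h2 := key θ⁻¹ _ _ _ h1
    rw [inv_smul_smul] at h2
    rw [(h _ _).mp h2, smul_inv_smul]
  · rintro rfl
    have h2 := (h (θ⁻¹ • u) _).mpr rfl
    have h3 := key θ _ _ _ h2
    rwa [smul_inv_smul] at h3

theorem graph_rel {R : Finset U} {b : Bool} {y : Equiv.Perm U} (h : F.Graph R b y)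
    (S : Finset U) : RelOn (F.T R b) S (S.image y) := by
  constructor
  · intro u hu
    exact ⟨y u, Finset.mem_image_of_mem _ hu, (h _ _).mpr rfl⟩
  · intro v hv
    obtain ⟨u, hu, rfl⟩ := Finset.mem_image.mp hv
    exact ⟨u, hu, (h _ _).mpr rfl⟩

/-- `Path S g`: `g` is the canonical element carrying the base set to `S`. -/
inductive Path : Finset U → Equiv.Perm U → Prop
  | base : Path c.A 1
  | step (S S' R : Finset U) (b : Bool) (n : ℕ) (g y : Equiv.Perm U) : F.L S R b n →
      RelOn (F.T R b) S S' → F.Graph R b y → Path S' g → Path S (y⁻¹ * g)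

theorem Path.card {S : Finset U} {g : Equiv.Perm U} (h : F.Path S g) : S.card = k := by
  cases h with
  | base => exact c.card_A
  | step _ S' R b n g y h1 h2 h3 h4 => exact F.Lcard _ _ _ _ h1

theorem Path.unique {S : Finset U} {g : Equiv.Perm U} (h : F.Path S g) :
    ∀ g', F.Path S g' → g = g' := by
  induction h with
  | base =>
    intro g' h'
    generalize hA : c.A = A' at h'
    cases h' with
    | base => rfl
    | step _ S' R b n g y h1 h2 h3 h4 =>
      subst hA
      exact absurd h1 (F.LA _ _ _)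
  | step S S' R b n g y h1 h2 h3 h4 ih =>
    intro g' h'
    cases h' with
    | base => exact absurd h1 (F.LA _ _ _)
    | step _ S'' R' b' n' g'' y' h1' h2' h3' h4' =>
      obtain ⟨rfl, rfl, rfl⟩ := F.Luniq _ _ _ _ _ _ _ h1 h1'
      have hS := RelOn.unique (F.Tfun R b) h2 h2'
      subst hS
      rw [F.graph_unique h3 h3', ih _ h4']

theorem Path.mem_iff {S : Finset U} {g : Equiv.Perm U} (h : F.Path S g) :
    c.A.image g = S := by
  induction h with
  | base => ext; simp
  | step S S' R b n g y h1 h2 h3 h4 ih =>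
    have hS : S' = S.image y := RelOn.unique (F.Tfun R b) h2 (F.graph_rel h3 S)
    have : (y⁻¹ * g : Equiv.Perm U) = (y⁻¹ : Equiv.Perm U) ∘ g := rfl
    rw [this, ← Finset.image_image, ih, hS, Finset.image_image]
    ext x
    simp

theorem Path.exists_of_label : ∀ (n : ℕ) (S R : Finset U) (b : Bool), F.L S R b n →
    ∃ g, F.Path S g := by
  intro n
  induction n using Nat.strong_induction_on with
  | _ n ih =>
    intro S R b h
    obtain ⟨S', hS'⟩ := F.Lpar _ _ _ _ h
    have hcard := F.Lcard _ _ _ _ h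
    have hne : S.Nonempty := by rw [← Finset.card_pos, hcard]; exact c.hk
    obtain ⟨u, hu⟩ := hne
    obtain ⟨v, -, huv⟩ := hS'.1 u hu
    have hact := F.Tact _ _ _ _ huv
    obtain ⟨y, hy⟩ := F.exists_graph R b hact
    have hS'c : S'.card = k := by
      rw [← hcard]
      exact (RelOn.card_eq (F.Tfun R b) (fun a a' d h h' =>
        F.Tfun _ _ _ _ _ (F.Tinv _ _ _ _ h) (F.Tinv _ _ _ _ h')) hS').symm
    by_cases hA : S' = c.A
    · subst hA
      exact ⟨_, Path.step _ _ _ _ _ _ _ h hS' hy Path.base⟩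
    · obtain ⟨R', b', n', h'⟩ := F.Lall S' hS'c hA
      rcases F.Lrk _ _ _ _ _ h hS' with h2 | h2
      · exact absurd h2 hA
      · obtain ⟨g, hg⟩ := ih n' (h2 _ _ _ h') S' R' b' h'
        exact ⟨_, Path.step _ _ _ _ _ _ _ h hS' hy hg⟩

theorem Path.exists (S : Finset U) (hS : S.card = k) : ∃ g, F.Path S g := by
  by_cases hA : S = c.A
  · subst hA; exact ⟨1, Path.base⟩
  · obtain ⟨R, b, n, h⟩ := F.Lall S hS hA
    exact Path.exists_of_label F n S R b h

theorem Path.gen {S R : Finset U} {b : Bool} {g y : Equiv.Perm U} (h : F.Path S g)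
    (hy : F.Graph R b y) : F.Path (S.image y) (y * g) := by
  have hrel := F.graph_rel hy S
  rcases F.Ledge _ _ _ _ hrel h.card with ⟨n, hL⟩ | ⟨n, hL⟩
  · cases h with
    | base => exact absurd hL (F.LA _ _ _)
    | step _ S' R' b' n' g y' h1 h2 h3 h4 =>
      obtain ⟨rfl, rfl, rfl⟩ := F.Luniq _ _ _ _ _ _ _ hL h1
      have := F.graph_unique h3 hy
      subst this
      rw [mul_inv_cancel_left]
      have hS := RelOn.unique (F.Tfun _ _) h2 hrel
      rw [← hS]
      exact h4
  · have := Path.step (F := F) (S.image y) S R (!b) n g y⁻¹ hL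
      (hrel.symm (fun a b h => F.Tinv _ _ _ _ h)) (F.graph_inv hy) h
    rwa [inv_inv] at this

theorem Path.smul {S : Finset U} {g : Equiv.Perm U} (h : F.Path S g) (θ : Θ) :
    F.Path (θ • S) (MulAction.toPerm θ * g * (MulAction.toPerm θ)⁻¹) := by
  induction h with
  | base =>
    rw [c.inv_A, mul_one, mul_inv_cancel]
    exact Path.base
  | step S S' R b n g y h1 h2 h3 h4 ih =>
    have h5 : RelOn (F.T (θ • R) b) (θ • S) (θ • S') := by
      constructor
      · intro x hx
        rw [Finset.mem_smul_finset] at hx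
        obtain ⟨x', hx', rfl⟩ := hx
        obtain ⟨z, hz, hxz⟩ := h2.1 x' hx'
        exact ⟨θ • z, Finset.smul_mem_smul_finset hz, F.Teq _ _ _ _ _ hxz⟩
      · intro x hx
        rw [Finset.mem_smul_finset] at hx
        obtain ⟨x', hx', rfl⟩ := hx
        obtain ⟨z, hz, hxz⟩ := h2.2 x' hx'
        exact ⟨θ • z, Finset.smul_mem_smul_finset hz, F.Teq _ _ _ _ _ hxz⟩
    have h6 := Path.step (F := F) _ _ _ _ _ _ _ (F.Leq θ _ _ _ _ h1) h5 (F.graph_smul θ h3) ih
    convert h6 using 1
    group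

/-- The group generated by `Θ` and all letters. -/
def grp : Subgroup (Equiv.Perm U) :=
  Subgroup.closure ({y | ∃ θ : Θ, y = MulAction.toPerm θ} ∪ {y | ∃ R b, F.Graph R b y})

theorem toPerm_mem (θ : Θ) : (MulAction.toPerm θ : Equiv.Perm U) ∈ F.grp :=
  Subgroup.subset_closure (Or.inl ⟨θ, rfl⟩)

theorem path_mem {S : Finset U} {g : Equiv.Perm U} (h : F.Path S g) : g ∈ F.grp := by
  induction h with
  | base => exact one_mem _
  | step S S' R b n g y h1 h2 h3 h4 ih =>
    exact mul_mem (inv_mem (Subgroup.subset_closure (Or.inr ⟨R, b, h3⟩))) ih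

theorem grp_path {g : Equiv.Perm U} (hg : g ∈ F.grp) : ∀ (S : Finset U) (h : Equiv.Perm U),
    F.Path S h → ∃ θ : Θ, F.Path (S.image g) (g * h * MulAction.toPerm θ) := by
  induction hg using Subgroup.closure_induction with
  | mem x hx =>
    intro S h hS
    rcases hx with ⟨θ, rfl⟩ | ⟨R, b, hy⟩
    · refine ⟨θ⁻¹, ?_⟩
      have h1 := hS.smul F θ
      have e1 : (MulAction.toPerm (θ⁻¹) : Equiv.Perm U) = (MulAction.toPerm θ)⁻¹ := by
        ext u; rfl
      rw [e1]
      have e2 : S.image (MulAction.toPerm θ : Equiv.Perm U) = θ • S := by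
        ext u
        rw [Finset.mem_smul_finset, Finset.mem_image]
        rfl
      rw [e2]
      exact h1
    · refine ⟨1, ?_⟩
      have e1 : (MulAction.toPerm (1 : Θ) : Equiv.Perm U) = 1 := by
        ext u; simp
      rw [e1, mul_one]
      exact hS.gen F hy
  | one =>
    intro S h hS
    refine ⟨1, ?_⟩
    have e1 : (MulAction.toPerm (1 : Θ) : Equiv.Perm U) = 1 := by
      ext u; simp
    rw [e1, mul_one, one_mul]
    have e2 : S.image (1 : Equiv.Perm U) = S := by ext u; simp
    rw [e2]; exact hS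
  | mul x y _ _ ihx ihy =>
    intro S h hS
    obtain ⟨θ, h1⟩ := ihy S h hS
    obtain ⟨η, h2⟩ := ihx _ _ h1
    refine ⟨θ * η, ?_⟩
    have e1 : (MulAction.toPerm (θ * η) : Equiv.Perm U)
        = MulAction.toPerm θ * MulAction.toPerm η := by
      ext u; exact mul_smul _ _ _
    have e2 : S.image (x * y : Equiv.Perm U) = (S.image y).image x := by
      rw [Finset.image_image]; rfl
    rw [e1, e2]
    convert h2 using 1
    group
  | inv x _ ih =>
    intro S h hS
    have hcard : (S.image (x⁻¹ : Equiv.Perm U)).card = k := by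
      rw [Finset.card_image_of_injective _ (x⁻¹ : Equiv.Perm U).injective]
      exact hS.card
    obtain ⟨h0, hh0⟩ := Path.exists F _ hcard
    obtain ⟨θ, h1⟩ := ih _ _ hh0
    have e2 : (S.image (x⁻¹ : Equiv.Perm U)).image x = S := by
      rw [Finset.image_image]
      ext u; simp
    rw [e2] at h1
    have h2 := hS.unique F _ h1
    refine ⟨θ⁻¹, ?_⟩
    have e1 : (MulAction.toPerm (θ⁻¹) : Equiv.Perm U) = (MulAction.toPerm θ)⁻¹ := by
      ext u; rfl
    have e3 : x⁻¹ * h * MulAction.toPerm θ⁻¹ = h0 := by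
      rw [e1, h2]
      group
    rw [e3]
    exact hh0

theorem grp_sharp {g : Equiv.Perm U} (hg : g ∈ F.grp) (S : Finset U) (hS : S.card = k)
    (hfix : ∀ u ∈ S, g u = u) : g = 1 := by
  obtain ⟨h, hh⟩ := Path.exists F S hS
  obtain ⟨θ, h1⟩ := F.grp_path hg S h hh
  have e : S.image g = S := by
    have : Set.EqOn g id S := fun u hu => hfix u hu
    rw [Finset.image_congr this, Finset.image_id]
  rw [e] at h1
  have h2 := hh.unique F _ h1
  have h3 : θ = 1 := by
    apply c.faithful
    intro u hu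
    have h4 : h u ∈ S := by
      rw [← hh.mem_iff F]; exact Finset.mem_image_of_mem _ hu
    -- θ u = h⁻¹ g⁻¹ h u
    have h5 : h u = (g * h * MulAction.toPerm θ : Equiv.Perm U) u := by rw [← h2]
    have h6 : (g * h * MulAction.toPerm θ : Equiv.Perm U) u = g (h (θ • u)) := rfl
    rw [h6] at h5
    have h7 : g (h u) = g (h (θ • u)) := by rw [hfix _ h4]; exact h5
    exact (h.injective (g.injective h7)).symm
  subst h3
  have e1 : (MulAction.toPerm (1 : Θ) : Equiv.Perm U) = 1 := by
    ext u; simp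
  rw [e1, mul_one] at h2
  have : g * h = 1 * h := by rw [one_mul]; exact h2.symm
  exact mul_right_cancel this

theorem grp_trans (S S' : Finset U) (hS : S.card = k) (hS' : S'.card = k) :
    ∃ g ∈ F.grp, S.image g = S' := by
  obtain ⟨h, hh⟩ := Path.exists F S hS
  obtain ⟨h', hh'⟩ := Path.exists F S' hS'
  refine ⟨h' * h⁻¹, mul_mem (F.path_mem hh') (inv_mem (F.path_mem hh)), ?_⟩
  rw [← hh.mem_iff F, ← hh'.mem_iff F, Finset.image_image]
  ext u; simp

end Final

/-- Main group-theoretic result of the construction. -/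
theorem exists_group [Finite Θ] [Countable U] (c : Ctx Θ U k) :
    ∃ G : Subgroup (Equiv.Perm U), (∀ θ : Θ, (MulAction.toPerm θ : Equiv.Perm U) ∈ G) ∧
      (∀ g ∈ G, ∀ S : Finset U, S.card = k → (∀ u ∈ S, g u = u) → g = 1) ∧
      (∀ S S' : Finset U, S.card = k → S'.card = k → ∃ g ∈ G, S.image g = S') := by
  obtain ⟨F⟩ := exists_final c
  exact ⟨F.grp, F.toPerm_mem, fun g hg S hS h => F.grp_sharp hg S hS h,
    fun S S' h h' => F.grp_trans S S' h h'⟩

end Pool.Agent.Lib.MP_f234cd_al
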