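import Pool.Agent.Lib.MP_f234cd_al.Extend

set_option autoImplicit false

open scoped Pointwise

namespace Pool.Agent.Lib.MP_f234cd_al

variable {Θ U : Type} [Group Θ] [MulAction Θ U] [DecidableEq U] {k : ℕ}

/-- The limit object of the construction. -/
structure Final (c : Ctx Θ U k) where
  T : Finset U → Bool → U → U → Prop
  L : Finset U → Finset U → Bool → ℕ → Prop
  Tinv : ∀ R b u v, T R b u v → T R (!b) v u
  Tfun : ∀ R b u v v', T R b u v → T R b u v' → v = v'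
  Teq : ∀ (θ : Θ) R b u v, T R b u v → T (θ • R) b (θ • u) (θ • v)
  Luniq : ∀ S R b n R' b' n', L S R b n → L S R' b' n' → R = R' ∧ b = b' ∧ n = n'
  Leq : ∀ (θ : Θ) S R b n, L S R b n → L (θ • S) (θ • R) b n
  Tact : ∀ R b u v, T R b u v → L R R true 1
  Lcard : ∀ S R b n, L S R b n → S.card = k
  Lpar : ∀ S R b n, L S R b n → ∃ S', RelOn (T R b) S S'
  Lrk : ∀ S R b n S', L S R b n → RelOn (T R b) S S' →
    S' = c.A ∨ (∀ R' b' n', L S' R' b' n' → n' < n)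
  Ledge : ∀ R b S S', RelOn (T R b) S S' → S.card = k →
    (∃ n, L S R b n) ∨ (∃ n, L S' R (!b) n)
  LA : ∀ R b n, ¬ L c.A R b n
  Tot : ∀ R, L R R true 1 → ∀ b u, ∃ v, T R b u v
  Lall : ∀ S : Finset U, S.card = k → S ≠ c.A → ∃ R b n, L S R b n

namespace Stage

variable {c : Ctx Θ U k}

/-- The dense set attached to the task of labelling `S`. -/
def D0 [Finite Θ] (c : Ctx Θ U k) (S : Finset U) : Order.Cofinal (Stage c) where
  carrier := {s | S.card = k → S ≠ c.A → ∃ R b n, s.L S R b n}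
  isCofinal := by
    intro s
    by_cases h : S.card = k ∧ S ≠ c.A ∧ (∀ R b n, ¬ s.L S R b n)
    · obtain ⟨t, hst, ht⟩ := s.exists_label S h.1 h.2.1 h.2.2
      exact ⟨t, fun _ _ => ⟨_, _, _, ht⟩, hst⟩
    · refine ⟨s, ?_, le_rfl⟩
      intro h1 h2
      by_contra h3
      push Not at h3
      exact h ⟨h1, h2, h3⟩

/-- The dense set attached to the task of extending the letter `(R, b)` at `u`. -/
def D1 [Finite Θ] (c : Ctx Θ U k) (R : Finset U) (b : Bool) (u : U) :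
    Order.Cofinal (Stage c) where
  carrier := {s | R.card = k → R ≠ c.A → (∃ v, s.T R b u v) ∨
    (∃ Q d n, s.L R Q d n ∧ ¬ (Q = R ∧ d = true ∧ n = 1))}
  isCofinal := by
    intro s
    by_cases h : R.card = k ∧ R ≠ c.A
    · obtain ⟨t, ht, hst⟩ := (D0 c R).isCofinal s
      obtain ⟨Q, d, n, hL⟩ := ht h.1 h.2
      by_cases h2 : Q = R ∧ d = true ∧ n = 1
      · obtain ⟨rfl, rfl, rfl⟩ := h2
        by_cases h3 : ∃ v, t.T Q b u v
        · exact ⟨t, fun _ _ => Or.inl h3, hst⟩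
        · push Not at h3
          obtain ⟨w, htw, hw⟩ := t.exists_extend Q b u hL h3
          exact ⟨w, fun _ _ => Or.inl hw, le_trans hst htw⟩
      · exact ⟨t, fun _ _ => Or.inr ⟨Q, d, n, hL, h2⟩, hst⟩
    · exact ⟨s, fun h1 h2 => absurd ⟨h1, h2⟩ h, le_rfl⟩

end Stage

/-- Existence of the limit object. -/
theorem exists_final [Finite Θ] [Countable U] (c : Ctx Θ U k) : Nonempty (Final c) := by
  classical
  let ι := Finset U ⊕ (Finset U × Bool × U)
  have : Encodable ι := Encodable.ofCountable ι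
  let D : ι → Order.Cofinal (Stage c) := fun i => match i with
    | Sum.inl S => Stage.D0 c S
    | Sum.inr (R, b, u) => Stage.D1 c R b u
  let st : ℕ → Stage c := Order.sequenceOfCofinals (Stage.init c) D
  have mono : Monotone st := Order.sequenceOfCofinals.monotone _ D
  have mem : ∀ i : ι, st (Encodable.encode i + 1) ∈ D i := fun i =>
    Order.sequenceOfCofinals.encode_mem _ D i
  let T : Finset U → Bool → U → U → Prop := fun R b u v => ∃ n, (st n).T R b u v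
  let L : Finset U → Finset U → Bool → ℕ → Prop := fun S R b m => ∃ n, (st n).L S R b m
  have Tm : ∀ n m, n ≤ m → ∀ R b u v, (st n).T R b u v → (st m).T R b u v :=
    fun n m h => (mono h).1
  have Lm : ∀ n m, n ≤ m → ∀ S R b r, (st n).L S R b r → (st m).L S R b r :=
    fun n m h => (mono h).2
  have Tfun : ∀ R b u v v', T R b u v → T R b u v' → v = v' := by
    rintro R b u v v' ⟨n, h⟩ ⟨m, h'⟩
    exact (st (max n m)).Tfun R b u v v' (Tm _ _ (le_max_left _ _) _ _ _ _ h)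
      (Tm _ _ (le_max_right _ _) _ _ _ _ h')
  -- a relation between finite sets appears at a finite stage
  have fin1 : ∀ (Q : U → ℕ → Prop), (∀ u n m, n ≤ m → Q u n → Q u m) → ∀ S : Finset U,
      (∀ u ∈ S, ∃ n, Q u n) → ∃ n, ∀ u ∈ S, Q u n := by
    intro Q hQ S hS
    choose! f hf using hS
    refine ⟨S.sup f, fun u hu => hQ u _ _ (Finset.le_sup hu) (hf u hu)⟩
  have finRel : ∀ R b S S', RelOn (T R b) S S' → ∃ n, RelOn ((st n).T R b) S S' := by
    intro R b S S' h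
    obtain ⟨n, hn⟩ := fin1 (fun u n => ∃ v ∈ S', (st n).T R b u v)
      (fun u n m hnm ⟨v, hv, h⟩ => ⟨v, hv, Tm _ _ hnm _ _ _ _ h⟩) S
      (fun u hu => by
        obtain ⟨v, hv, n, hn⟩ := h.1 u hu
        exact ⟨n, v, hv, hn⟩)
    obtain ⟨m, hm⟩ := fin1 (fun v n => ∃ u ∈ S, (st n).T R b u v)
      (fun u n m hnm ⟨v, hv, h⟩ => ⟨v, hv, Tm _ _ hnm _ _ _ _ h⟩) S'
      (fun v hv => by
        obtain ⟨u, hu, n, hn⟩ := h.2 v hv
        exact ⟨n, u, hu, hn⟩)
    refine ⟨max n m, ?_, ?_⟩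
    · intro u hu
      obtain ⟨v, hv, h⟩ := hn u hu
      exact ⟨v, hv, Tm _ _ (le_max_left _ _) _ _ _ _ h⟩
    · intro v hv
      obtain ⟨u, hu, h⟩ := hm v hv
      exact ⟨u, hu, Tm _ _ (le_max_right _ _) _ _ _ _ h⟩
  have Lall : ∀ S : Finset U, S.card = k → S ≠ c.A → ∃ R b n, L S R b n := by
    intro S h1 h2
    obtain ⟨R, b, n, h⟩ := mem (Sum.inl S) h1 h2
    exact ⟨R, b, n, _, h⟩
  have LA : ∀ R b n, ¬ L c.A R b n := by
    rintro R b n ⟨m, h⟩
    exact (st m).LA _ _ _ h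
  have Luniq : ∀ S R b n R' b' n', L S R b n → L S R' b' n' → R = R' ∧ b = b' ∧ n = n' := by
    rintro S R b r R' b' r' ⟨n, h⟩ ⟨m, h'⟩
    exact (st (max n m)).Luniq _ _ _ _ _ _ _ (Lm _ _ (le_max_left _ _) _ _ _ _ h)
      (Lm _ _ (le_max_right _ _) _ _ _ _ h')
  have Lcard : ∀ S R b n, L S R b n → S.card = k := by
    rintro S R b n ⟨m, h⟩
    exact (st m).Lcard _ _ _ _ h
  refine ⟨{ T := T, L := L, Tinv := ?_, Tfun := Tfun, Teq := ?_, Luniq := Luniq, Leq := ?_,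
            Tact := ?_, Lcard := Lcard, Lpar := ?_, Lrk := ?_, Ledge := ?_, LA := LA, Tot := ?_,
            Lall := Lall }⟩
  · rintro R b u v ⟨n, h⟩
    exact ⟨n, (st n).Tinv _ _ _ _ h⟩
  · rintro θ R b u v ⟨n, h⟩
    exact ⟨n, (st n).Teq _ _ _ _ _ h⟩
  · rintro θ S R b m ⟨n, h⟩
    exact ⟨n, (st n).Leq _ _ _ _ _ h⟩
  · rintro R b u v ⟨n, h⟩
    exact ⟨n, (st n).Tact _ _ _ _ h⟩
  · rintro S R b m ⟨n, h⟩
    obtain ⟨S', hS'⟩ := (st n).Lpar _ _ _ _ h
    exact ⟨S', hS'.mono (fun _ _ h => ⟨n, h⟩)⟩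
  · rintro S R b r S' ⟨n, h⟩ hrel
    obtain ⟨S'', hS''⟩ := (st n).Lpar _ _ _ _ h
    have hEq : S' = S'' := RelOn.unique (Tfun R b) hrel (hS''.mono (fun _ _ h => ⟨n, h⟩))
    subst hEq
    by_cases hA : S' = c.A
    · exact Or.inl hA
    · right
      rintro R' b' r' ⟨m, h'⟩
      rcases (st (max n m)).Lrk S R b r S' (Lm _ _ (le_max_left _ _) _ _ _ _ h)
        (hS''.mono (fun _ _ h => Tm _ _ (le_max_left _ _) _ _ _ _ h)) with h1 | ⟨-, h2⟩
      · exact absurd h1 hA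
      · exact h2 _ _ _ (Lm _ _ (le_max_right _ _) _ _ _ _ h')
  · intro R b S S' hrel hS
    obtain ⟨n, hn⟩ := finRel _ _ _ _ hrel
    rcases (st n).Ledge _ _ _ _ hn hS with ⟨m, h⟩ | ⟨m, h⟩
    · exact Or.inl ⟨m, n, h⟩
    · exact Or.inr ⟨m, n, h⟩
  · intro R hR b u
    have h1 : R.card = k := Lcard _ _ _ _ hR
    have h2 : R ≠ c.A := by
      rintro rfl
      exact LA _ _ _ hR
    rcases mem (Sum.inr (R, b, u)) h1 h2 with ⟨v, hv⟩ | ⟨Q, d, n, hL, hne⟩
    · exact ⟨v, _, hv⟩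
    · exfalso
      obtain ⟨e1, e2, e3⟩ := Luniq _ _ _ _ _ _ _ ⟨_, hL⟩ hR
      exact hne ⟨e1, e2, e3⟩

end Pool.Agent.Lib.MP_f234cd_al
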