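import Pool.Agent.Lib.MP_f234cd_al.Basic

set_option autoImplicit false

open scoped Pointwise

namespace Pool.Agent.Lib.MP_f234cd_al

variable {Θ U : Type} [Group Θ] [MulAction Θ U] [DecidableEq U] {k : ℕ}

omit [DecidableEq U] in
theorem RelOn.mono {r r' : U → U → Prop} (h : ∀ a b, r a b → r' a b) {S S' : Finset U}
    (hr : RelOn r S S') : RelOn r' S S' :=
  ⟨fun u hu => let ⟨v, hv, h1⟩ := hr.1 u hu; ⟨v, hv, h _ _ h1⟩,
   fun v hv => let ⟨u, hu, h1⟩ := hr.2 v hv; ⟨u, hu, h _ _ h1⟩⟩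

omit [DecidableEq U] in
theorem RelOn.symm {r r' : U → U → Prop} (h : ∀ a b, r a b → r' b a) {S S' : Finset U}
    (hr : RelOn r S S') : RelOn r' S' S :=
  ⟨fun u hu => let ⟨v, hv, h1⟩ := hr.2 u hu; ⟨v, hv, h _ _ h1⟩,
   fun v hv => let ⟨u, hu, h1⟩ := hr.1 v hv; ⟨u, hu, h _ _ h1⟩⟩

omit [DecidableEq U] in
/-- A functional and injective relation which maps `S` onto `S'` preserves cardinality. -/
theorem RelOn.card_eq {r : U → U → Prop} (hf : ∀ a b b', r a b → r a b' → b = b')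
    (hi : ∀ a a' b, r a b → r a' b → a = a') {S S' : Finset U} (hr : RelOn r S S') :
    S.card = S'.card := by
  classical
  choose f hf1 hf2 using hr.1
  apply Finset.card_bij f (fun a ha => hf1 a ha)
  · intro a ha a' ha' hab
    apply hi a a' (f a ha) (hf2 a ha)
    rw [hab]; exact hf2 a' ha'
  · intro b hb
    obtain ⟨a, ha, hab⟩ := hr.2 b hb
    exact ⟨a, ha, hf a _ _ (hf2 a ha) hab⟩

omit [DecidableEq U] in
theorem RelOn.unique {r : U → U → Prop} (hf : ∀ a b b', r a b → r a b' → b = b')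
    {S S1 S2 : Finset U} (h1 : RelOn r S S1) (h2 : RelOn r S S2) : S1 = S2 := by
  apply Finset.Subset.antisymm
  · intro v hv
    obtain ⟨u, hu, h⟩ := h1.2 v hv
    obtain ⟨w, hw, h'⟩ := h2.1 u hu
    rw [hf _ _ _ h h']; exact hw
  · intro v hv
    obtain ⟨u, hu, h⟩ := h2.2 v hv
    obtain ⟨w, hw, h'⟩ := h1.1 u hu
    rw [hf _ _ _ h h']; exact hw

/-- A stage of the construction.  `T R b u v`: the partial injection attached to the letter
`(R, b)` maps `u` to `v` (`b = false` is the inverse of `b = true`).  `L S R b n`: the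
`k`-set `S` has the parent letter `(R, b)` and rank `n`. -/
structure Stage (c : Ctx Θ U k) where
  T : Finset U → Bool → U → U → Prop
  L : Finset U → Finset U → Bool → ℕ → Prop
  N : ℕ
  Tinv : ∀ R b u v, T R b u v → T R (!b) v u
  Tfun : ∀ R b u v v', T R b u v → T R b u v' → v = v'
  Teq : ∀ (θ : Θ) R b u v, T R b u v → T (θ • R) b (θ • u) (θ • v)
  Tlvl : ∀ R b u v, T R b u v → c.lvl u < N
  Lle : ∀ S R b n, L S R b n → n ≤ N
  Luniq : ∀ S R b n R' b' n', L S R b n → L S R' b' n' → R = R' ∧ b = b' ∧ n = n'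
  Leq : ∀ (θ : Θ) S R b n, L S R b n → L (θ • S) (θ • R) b n
  Tact : ∀ R b u v, T R b u v → L R R true 1
  Lact : ∀ R, L R R true 1 → RelOn (T R true) R c.A
  Lcard : ∀ S R b n, L S R b n → S.card = k
  Lpar : ∀ S R b n, L S R b n → ∃ S', RelOn (T R b) S S'
  Lrk : ∀ S R b n S', L S R b n → RelOn (T R b) S S' →
    S' = c.A ∨ (2 ≤ n ∧ ∀ R' b' n', L S' R' b' n' → n' < n)
  Ledge : ∀ R b S S', RelOn (T R b) S S' → S.card = k →
    (∃ n, L S R b n) ∨ (∃ n, L S' R (!b) n)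
  LA : ∀ R b n, ¬ L c.A R b n

namespace Stage

variable {c : Ctx Θ U k}

theorem Tinj (s : Stage c) (R : Finset U) (b : Bool) (u u' v : U) (h : s.T R b u v)
    (h' : s.T R b u' v) : u = u' :=
  s.Tfun R (!b) v u u' (s.Tinv _ _ _ _ h) (s.Tinv _ _ _ _ h')

theorem Tlvl' (s : Stage c) (R : Finset U) (b : Bool) (u v : U) (h : s.T R b u v) :
    c.lvl v < s.N :=
  s.Tlvl R (!b) v u (s.Tinv _ _ _ _ h)

instance : Preorder (Stage c) where
  le s t := (∀ R b u v, s.T R b u v → t.T R b u v) ∧ (∀ S R b n, s.L S R b n → t.L S R b n)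
  le_refl s := ⟨fun _ _ _ _ h => h, fun _ _ _ _ h => h⟩
  le_trans s t w h h' := ⟨fun _ _ _ _ hh => h'.1 _ _ _ _ (h.1 _ _ _ _ hh),
    fun _ _ _ _ hh => h'.2 _ _ _ _ (h.2 _ _ _ _ hh)⟩

theorem le_def (s t : Stage c) : s ≤ t ↔
    (∀ R b u v, s.T R b u v → t.T R b u v) ∧ (∀ S R b n, s.L S R b n → t.L S R b n) := Iff.rfl

/-- The empty stage. -/
def init (c : Ctx Θ U k) : Stage c where
  T := fun _ _ _ _ => False
  L := fun _ _ _ _ => False
  N := 0
  Tinv := by simp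
  Tfun := by simp
  Teq := by simp
  Tlvl := by simp
  Lle := by simp
  Luniq := by simp
  Leq := by simp
  Tact := by simp
  Lact := by simp
  Lcard := by simp
  Lpar := by simp
  Lrk := by simp
  Ledge := by
    intro R b S S' h hS
    have hpos : 0 < S.card := by rw [hS]; exact c.hk
    obtain ⟨u, hu⟩ := Finset.card_pos.mp hpos
    obtain ⟨v, -, hv⟩ := h.1 u hu
    exact hv.elim
  LA := by simp

theorem card_pos_of (c : Ctx Θ U k) {S : Finset U} (h : S.card = k) : S.Nonempty := by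
  rw [← Finset.card_pos, h]; exact c.hk

end Stage

theorem smul_set_eq_iff {θ η : Θ} {R : Finset U} : θ • R = η • R ↔ (θ⁻¹ * η) • R = R := by
  rw [mul_smul, inv_smul_eq_iff, eq_comm]

namespace Stage

variable {c : Ctx Θ U k}

/-- Step (b): give a label to an unlabelled `k`-set by adding a new generator. -/
theorem exists_label [Finite Θ] (s : Stage c) (R : Finset U) (hR : R.card = k) (hRA : R ≠ c.A)
    (hno : ∀ Q b n, ¬ s.L R Q b n) : ∃ t : Stage c, s ≤ t ∧ t.L R R true 1 := by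
  obtain ⟨f, f1, f2, f3, f4⟩ := c.exists_map R hR
  -- level bound
  let M : ℕ := max (max s.N 1) (R.sup c.lvl + 1)
  have hMN : s.N ≤ M := le_trans (le_max_left _ _) (le_max_left _ _)
  have hM1 : 1 ≤ M := le_trans (le_max_right _ _) (le_max_left _ _)
  have hMR : ∀ u ∈ R, c.lvl u < M := by
    intro u hu
    have h1 : c.lvl u ≤ R.sup c.lvl := Finset.le_sup hu
    have h2 : R.sup c.lvl + 1 ≤ M := le_max_right _ _
    omega
  let T' : Finset U → Bool → U → U → Prop := fun Q b u v => s.T Q b u v ∨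
    (b = true ∧ ∃ θ : Θ, Q = θ • R ∧ ∃ x ∈ R, u = θ • x ∧ v = θ • f x) ∨
    (b = false ∧ ∃ θ : Θ, Q = θ • R ∧ ∃ x ∈ R, v = θ • x ∧ u = θ • f x)
  let L' : Finset U → Finset U → Bool → ℕ → Prop := fun S Q b n => s.L S Q b n ∨
    (∃ θ : Θ, S = θ • R ∧ Q = θ • R ∧ b = true ∧ n = 1)
  have hT' : ∀ Q b u v, T' Q b u v ↔ (s.T Q b u v ∨
    (b = true ∧ ∃ θ : Θ, Q = θ • R ∧ ∃ x ∈ R, u = θ • x ∧ v = θ • f x) ∨
    (b = false ∧ ∃ θ : Θ, Q = θ • R ∧ ∃ x ∈ R, v = θ • x ∧ u = θ • f x)) := fun _ _ _ _ => Iff.rfl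
  have hL' : ∀ S Q b n, L' S Q b n ↔ (s.L S Q b n ∨
    (∃ θ : Θ, S = θ • R ∧ Q = θ • R ∧ b = true ∧ n = 1)) := fun _ _ _ _ => Iff.rfl
  -- old data do not live on the orbit of R
  have hnoθ : ∀ (θ : Θ) Q b n, ¬ s.L (θ • R) Q b n := by
    intro θ Q b n h
    have := s.Leq θ⁻¹ _ _ _ _ h
    rw [inv_smul_smul] at this
    exact hno _ _ _ this
  have hnoT : ∀ (θ : Θ) b u v, ¬ s.T (θ • R) b u v := by
    intro θ b u v h
    exact hnoθ θ _ _ _ (s.Tact _ _ _ _ h)
  have memθR : ∀ (θ : Θ) x, x ∈ R → θ • x ∈ θ • R := fun θ x hx =>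
    Finset.smul_mem_smul_finset hx
  -- key: if θ • R = η • R then for x ∈ R, θ • x = η • y, y = (η⁻¹ θ) x ∈ R
  have hstab : ∀ (θ η : Θ), θ • R = η • R → (θ⁻¹ * η) • R = R := fun θ η h =>
    smul_set_eq_iff.mp h
  have newdom : ∀ (Q : Finset U) (u v : U), T' Q true u v → (¬ s.T Q true u v) →
      u ∈ Q ∧ v ∈ c.A := by
    intro Q u v h h'
    rcases h with h | ⟨-, θ, rfl, x, hx, rfl, rfl⟩ | ⟨hb, -⟩
    · exact absurd h h'
    · refine ⟨memθR θ x hx, ?_⟩
      have := Finset.smul_mem_smul_finset (a := θ) (f1 x hx)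
      rwa [c.inv_A] at this
    · simp at hb
  have Tinv' : ∀ Q b u v, T' Q b u v → T' Q (!b) v u := by
    intro Q b u v h
    rcases h with h | ⟨rfl, h⟩ | ⟨rfl, h⟩
    · exact Or.inl (s.Tinv _ _ _ _ h)
    · exact Or.inr (Or.inr ⟨rfl, h⟩)
    · exact Or.inr (Or.inl ⟨rfl, h⟩)
  have Tfun' : ∀ Q b u v v', T' Q b u v → T' Q b u v' → v = v' := by
    intro Q b u v v' h h'
    rcases h with h | ⟨hb, θ, hQ, x, hx, hu, hv⟩ | ⟨hb, θ, hQ, x, hx, hv, hu⟩
    · rcases h' with h' | ⟨hb', η, hQ', x', hx', hu', hv'⟩ | ⟨hb', η, hQ', x', hx', hv', hu'⟩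
      · exact s.Tfun _ _ _ _ _ h h'
      · subst hQ'; exact absurd h (hnoT _ _ _ _)
      · subst hQ'; exact absurd h (hnoT _ _ _ _)
    · rcases h' with h' | ⟨hb', η, hQ', x', hx', hu', hv'⟩ | ⟨hb', η, hQ', x', hx', hv', hu'⟩
      · subst hQ; exact absurd h' (hnoT _ _ _ _)
      · -- θ x = η x'
        have h1 := hstab θ η (hQ ▸ hQ')
        have h2 : x = (θ⁻¹ * η) • x' := by
          rw [mul_smul, ← hu', hu, inv_smul_smul]
        have h3 := f4 (θ⁻¹ * η) h1 x' hx'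
        rw [← h2] at h3
        rw [hv, hv', h3, ← mul_smul, mul_inv_cancel_left]
      · rw [hb] at hb'; simp at hb'
    · rcases h' with h' | ⟨hb', η, hQ', x', hx', hu', hv'⟩ | ⟨hb', η, hQ', x', hx', hv', hu'⟩
      · subst hQ; exact absurd h' (hnoT _ _ _ _)
      · rw [hb] at hb'; simp at hb'
      · have h1 := hstab θ η (hQ ▸ hQ')
        have h2 : f x = (θ⁻¹ * η) • f x' := by
          rw [mul_smul, ← hu', hu, inv_smul_smul]
        have h3 := f4 (θ⁻¹ * η) h1 x' hx'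
        rw [← h3] at h2
        have h4 : (θ⁻¹ * η) • x' ∈ R := by
          have h4' := Finset.smul_mem_smul_finset (a := θ⁻¹ * η) hx'
          rwa [h1] at h4'
        have h5 := f3 x hx _ h4 h2
        rw [hv, hv', h5, ← mul_smul, mul_inv_cancel_left]
  have Teq' : ∀ (θ : Θ) Q b u v, T' Q b u v → T' (θ • Q) b (θ • u) (θ • v) := by
    intro θ Q b u v h
    rcases h with h | ⟨rfl, η, rfl, x, hx, rfl, rfl⟩ | ⟨rfl, η, rfl, x, hx, rfl, rfl⟩
    · exact Or.inl (s.Teq _ _ _ _ _ h)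
    · exact Or.inr (Or.inl ⟨rfl, θ * η, (mul_smul _ _ _).symm, x, hx, (mul_smul _ _ _).symm,
        (mul_smul _ _ _).symm⟩)
    · exact Or.inr (Or.inr ⟨rfl, θ * η, (mul_smul _ _ _).symm, x, hx, (mul_smul _ _ _).symm,
        (mul_smul _ _ _).symm⟩)
  refine ⟨{ T := T', L := L', N := M, Tinv := Tinv', Tfun := Tfun', Teq := Teq', Tlvl := ?_,
            Lle := ?_, Luniq := ?_, Leq := ?_, Tact := ?_, Lact := ?_, Lcard := ?_, Lpar := ?_,
            Lrk := ?_, Ledge := ?_, LA := ?_ }, ⟨fun _ _ _ _ h => Or.inl h,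
            fun _ _ _ _ h => Or.inl h⟩, Or.inr ⟨1, by simp⟩⟩
  · intro Q b u v h
    rcases h with h | ⟨rfl, η, rfl, x, hx, rfl, rfl⟩ | ⟨rfl, η, rfl, x, hx, rfl, rfl⟩
    · exact lt_of_lt_of_le (s.Tlvl _ _ _ _ h) hMN
    · rw [c.lvl_smul]; exact hMR x hx
    · rw [c.lvl_smul, c.lvl_A _ (f1 x hx)]; omega
  · intro S Q b n h
    rcases h with h | ⟨θ, -, -, -, rfl⟩
    · exact le_trans (s.Lle _ _ _ _ h) hMN
    · exact hM1
  · intro S Q b n Q' b' n' h h'
    rcases h with h | ⟨θ, hS, hQ, hb, hn⟩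
    · rcases h' with h' | ⟨η, hS', hQ', hb', hn'⟩
      · exact s.Luniq _ _ _ _ _ _ _ h h'
      · subst hS'; exact absurd h (hnoθ _ _ _ _)
    · rcases h' with h' | ⟨η, hS', hQ', hb', hn'⟩
      · subst hS; exact absurd h' (hnoθ _ _ _ _)
      · exact ⟨by rw [hQ, hQ', ← hS, ← hS'], by rw [hb, hb'], by rw [hn, hn']⟩
  · intro θ S Q b n h
    rcases h with h | ⟨η, rfl, rfl, rfl, rfl⟩
    · exact Or.inl (s.Leq _ _ _ _ _ h)
    · exact Or.inr ⟨θ * η, (mul_smul _ _ _).symm, (mul_smul _ _ _).symm, rfl, rfl⟩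
  · intro Q b u v h
    rcases h with h | ⟨rfl, η, rfl, x, hx, rfl, rfl⟩ | ⟨rfl, η, rfl, x, hx, rfl, rfl⟩
    · exact Or.inl (s.Tact _ _ _ _ h)
    · exact Or.inr ⟨η, rfl, rfl, rfl, rfl⟩
    · exact Or.inr ⟨η, rfl, rfl, rfl, rfl⟩
  · intro Q h
    rcases h with h | ⟨θ, hQ, -, -, -⟩
    · exact (s.Lact Q h).mono (fun _ _ h => Or.inl h)
    · subst hQ
      constructor
      · intro u hu
        rw [Finset.mem_smul_finset] at hu
        obtain ⟨x, hx, rfl⟩ := hu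
        refine ⟨θ • f x, ?_, Or.inr (Or.inl ⟨rfl, θ, rfl, x, hx, rfl, rfl⟩)⟩
        have := Finset.smul_mem_smul_finset (a := θ) (f1 x hx)
        rwa [c.inv_A] at this
      · intro v hv
        have hv' : θ⁻¹ • v ∈ c.A := by
          have := Finset.smul_mem_smul_finset (a := θ⁻¹) hv
          rwa [c.inv_A] at this
        obtain ⟨x, hx, hfx⟩ := f2 _ hv'
        refine ⟨θ • x, memθR θ x hx, Or.inr (Or.inl ⟨rfl, θ, rfl, x, hx, rfl, ?_⟩)⟩
        rw [hfx, smul_inv_smul]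
  · intro S Q b n h
    rcases h with h | ⟨θ, rfl, -, -, -⟩
    · exact s.Lcard _ _ _ _ h
    · rw [Finset.card_smul_finset, hR]
  · intro S Q b n h
    rcases h with h | ⟨θ, hS, hQ, hb, -⟩
    · obtain ⟨S', hS'⟩ := s.Lpar _ _ _ _ h
      exact ⟨S', hS'.mono (fun _ _ h => Or.inl h)⟩
    · subst hb hQ hS
      refine ⟨c.A, ?_, ?_⟩
      · intro u hu
        rw [Finset.mem_smul_finset] at hu
        obtain ⟨x, hx, rfl⟩ := hu
        refine ⟨θ • f x, ?_, Or.inr (Or.inl ⟨rfl, θ, rfl, x, hx, rfl, rfl⟩)⟩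
        have := Finset.smul_mem_smul_finset (a := θ) (f1 x hx)
        rwa [c.inv_A] at this
      · intro v hv
        have hv' : θ⁻¹ • v ∈ c.A := by
          have := Finset.smul_mem_smul_finset (a := θ⁻¹) hv
          rwa [c.inv_A] at this
        obtain ⟨x, hx, hfx⟩ := f2 _ hv'
        refine ⟨θ • x, memθR θ x hx, Or.inr (Or.inl ⟨rfl, θ, rfl, x, hx, rfl, ?_⟩)⟩
        rw [hfx, smul_inv_smul]
  · intro S Q b n S' h hrel
    rcases h with h | ⟨θ, hS, hQ, hb, -⟩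
    · -- old label
      obtain ⟨S'', hS''⟩ := s.Lpar _ _ _ _ h
      have hEq : S' = S'' := RelOn.unique (Tfun' Q b) hrel (hS''.mono (fun _ _ h => Or.inl h))
      subst hEq
      rcases s.Lrk _ _ _ _ _ h hS'' with hA | ⟨h2, hlt⟩
      · exact Or.inl hA
      · refine Or.inr ⟨h2, ?_⟩
        intro R' b' n' hL
        rcases hL with hL | ⟨η, -, -, -, rfl⟩
        · exact hlt _ _ _ hL
        · omega
    · left
      subst hb hQ hS
      apply Finset.eq_of_subset_of_card_le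
      · intro v hv
        obtain ⟨u, hu, huv⟩ := hrel.2 v hv
        exact (newdom _ _ _ huv (hnoT _ _ _ _)).2
      · have := RelOn.card_eq (Tfun' (θ • R) true)
          (fun a a' b h h' => Tfun' _ _ _ _ _ (Tinv' _ _ _ _ h) (Tinv' _ _ _ _ h')) hrel
        rw [Finset.card_smul_finset, hR] at this
        rw [← this, c.card_A]
  · intro Q b S S' hrel hS
    by_cases hQ : ∃ θ : Θ, Q = θ • R
    · obtain ⟨θ, rfl⟩ := hQ
      cases b with
      | true =>
        left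
        refine ⟨1, Or.inr ⟨θ, ?_, rfl, rfl, rfl⟩⟩
        apply Finset.eq_of_subset_of_card_le
        · intro u hu
          obtain ⟨v, hv, huv⟩ := hrel.1 u hu
          exact (newdom _ _ _ huv (hnoT _ _ _ _)).1
        · rw [Finset.card_smul_finset, hR, hS]
      | false =>
        right
        have hrel' : RelOn (T' (θ • R) true) S' S := hrel.symm (fun a b h => Tinv' _ _ _ _ h)
        refine ⟨1, Or.inr ⟨θ, ?_, rfl, rfl, rfl⟩⟩
        apply Finset.eq_of_subset_of_card_le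
        · intro u hu
          obtain ⟨v, hv, huv⟩ := hrel'.1 u hu
          exact (newdom _ _ _ huv (hnoT _ _ _ _)).1
        · rw [Finset.card_smul_finset, hR]
          have := RelOn.card_eq (Tfun' (θ • R) true)
            (fun a a' b h h' => Tfun' _ _ _ _ _ (Tinv' _ _ _ _ h) (Tinv' _ _ _ _ h')) hrel'
          rw [this, hS]
    · have hold : ∀ u v, T' Q b u v → s.T Q b u v := by
        intro u v h
        rcases h with h | ⟨rfl, η, h, -⟩ | ⟨rfl, η, h, -⟩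
        · exact h
        · exact absurd ⟨η, h⟩ hQ
        · exact absurd ⟨η, h⟩ hQ
      rcases s.Ledge _ _ _ _ (hrel.mono hold) hS with ⟨n, h⟩ | ⟨n, h⟩
      · exact Or.inl ⟨n, Or.inl h⟩
      · exact Or.inr ⟨n, Or.inl h⟩
  · intro Q b n h
    rcases h with h | ⟨θ, hA, -, -, -⟩
    · exact s.LA _ _ _ h
    · apply hRA
      have : θ⁻¹ • c.A = R := by rw [hA, inv_smul_smul]
      rw [c.inv_A] at this
      exact this.symm

end Stage

end Pool.Agent.Lib.MP_f234cd_al
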